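import Pool.Agent.Lib.MP_f6c41f_nt.RP.PDefs

/-!
# MP_f6c41f_nt RP, row Ap3: the model has no constant and alternating progression with the same difference

Proof.  By `phi_int` only `x = a s` modulo one matters: choose an integer `z` with `|x - z| ≤ 1/2`, `θ = x - z`.
`phi_floor`: `phi y = 1` iff `⌊2y⌋` is even.
* `|θ| < 1/4`: no alternating progression `phi y = - phi (y + θ) = phi (y + 2 θ)`: for `θ ≥ 0` the numbers `2y ≤ 2y + 2θ ≤
2y + 4θ < 2y + 1` have floors that increase by at most `1` in total, so the parity of the floor does not change twice.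
For `θ < 0` the same with decreasing floors.
* `|θ| > 1/4`: no constant progression: `θ' = θ ∓ 1/2` has `|θ'| < 1/4`, `phi (y + θ) = - phi (y + θ')` (`phi_half`) and
`phi (y + 2 θ) = phi (y + 2 θ')`; a constant progression for `θ` is an alternating one for `θ'`.
* `|θ| = 1/4`: `phi (y + 2 θ) = - phi y` for all `y`, so there is neither.
-/

set_option autoImplicit false

namespace Pool.Agent.Lib.MP_f6c41f_nt.RP

open Finset Pool.Agent.Lib.MP_f6c41f_nt Pool.Agent.Lib.MP_f6c41f_nt.RT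
open scoped Classical

private theorem ap3_par {x y : ℝ} (h : phi x = -phi y) : ¬ (⌊2 * x⌋ % 2 = ⌊2 * y⌋ % 2) := by
  intro he
  rw [phi_floor, phi_floor] at h
  have : Even ⌊2 * x⌋ ↔ Even ⌊2 * y⌋ := by
    rw [Int.even_iff, Int.even_iff, he]
  by_cases h1 : Even ⌊2 * y⌋
  · rw [if_pos h1, if_pos (this.2 h1)] at h; norm_num at h
  · rw [if_neg h1, if_neg (fun h2 => h1 (this.1 h2))] at h; norm_num at h

private theorem ap3_alt (y θ : ℝ) (h : |θ| < 1 / 4) :
    ¬ (phi y = -phi (y + θ) ∧ phi (y + θ) = -phi (y + 2 * θ)) := by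
  rintro ⟨h1, h2⟩
  have p1 := ap3_par h1
  have p2 := ap3_par h2
  obtain ⟨ha, hb⟩ := abs_lt.1 h
  rcases le_total 0 θ with h0 | h0
  · have a1 : ⌊2 * y⌋ ≤ ⌊2 * (y + θ)⌋ := Int.floor_le_floor (by linarith)
    have a2 : ⌊2 * (y + θ)⌋ ≤ ⌊2 * (y + 2 * θ)⌋ := Int.floor_le_floor (by linarith)
    have a3 : ⌊2 * (y + 2 * θ)⌋ ≤ ⌊2 * y + 1⌋ := Int.floor_le_floor (by linarith)
    rw [Int.floor_add_one] at a3
    omega
  · have a1 : ⌊2 * (y + θ)⌋ ≤ ⌊2 * y⌋ := Int.floor_le_floor (by linarith)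
    have a2 : ⌊2 * (y + 2 * θ)⌋ ≤ ⌊2 * (y + θ)⌋ := Int.floor_le_floor (by linarith)
    have a3 : ⌊2 * y⌋ ≤ ⌊2 * (y + 2 * θ) + 1⌋ := Int.floor_le_floor (by linarith)
    rw [Int.floor_add_one] at a3
    omega

private theorem ap3_mono (y θ : ℝ) (h : 1 / 4 < |θ|) (h' : |θ| ≤ 1 / 2) :
    ¬ (phi y = phi (y + θ) ∧ phi (y + θ) = phi (y + 2 * θ)) := by
  rintro ⟨h1, h2⟩
  obtain ⟨hl, hr⟩ := abs_le.1 h'
  rcases lt_abs.1 h with h0 | h0
  · have e1 : phi (y + θ) = -phi (y + (θ - 1 / 2)) := by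
      rw [← phi_half]; congr 1; ring
    have e2 : phi (y + 2 * θ) = phi (y + 2 * (θ - 1 / 2)) := by
      have := phi_int (y + 2 * (θ - 1 / 2)) 1
      rw [← this]; congr 1; push_cast; ring
    refine ap3_alt y (θ - 1 / 2) (abs_lt.2 ⟨by linarith, by linarith⟩) ⟨by rw [h1, e1], ?_⟩
    rw [← e2, ← h2, e1, neg_neg]
  · have e1 : phi (y + θ) = -phi (y + (θ + 1 / 2)) := by
      have := phi_half (y + θ)
      have e : y + (θ + 1 / 2) = y + θ + 1 / 2 := by ring
      rw [e, this, neg_neg]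
    have e2 : phi (y + 2 * θ) = phi (y + 2 * (θ + 1 / 2)) := by
      have := phi_int (y + 2 * θ) 1
      rw [← this]; congr 1; push_cast; ring
    refine ap3_alt y (θ + 1 / 2) (abs_lt.2 ⟨by linarith, by linarith⟩) ⟨by rw [h1, e1], ?_⟩
    rw [← e2, ← h2, e1, neg_neg]

theorem ap3 (s t : ℝ) (a b b' : ℕ) : ¬ VioP (fun i => phi (t + (i : ℝ) * s)) a b b' := by
  rintro ⟨h1, h2, h3, h4⟩
  simp only at h1 h2 h3 h4
  push_cast at h1 h2 h3 h4
  set x : ℝ := a * s with hx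
  obtain ⟨z, hz1, hz2⟩ := nrm_rep x
  set θ : ℝ := x - z with hθ
  have e1 : ∀ y : ℝ, phi (y + x) = phi (y + θ) := by
    intro y
    rw [← phi_int (y + θ) z]; congr 1; rw [hθ]; ring
  have e2 : ∀ y : ℝ, phi (y + 2 * x) = phi (y + 2 * θ) := by
    intro y
    rw [← phi_int (y + 2 * θ) (2 * z)]; congr 1; rw [hθ]; push_cast; ring
  have f1 : ∀ c : ℝ, t + (c + a) * s = t + c * s + x := by intro c; rw [hx]; ring
  have f2 : ∀ c : ℝ, t + (c + 2 * a) * s = t + c * s + 2 * x := by intro c; rw [hx]; ring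
  rw [f1, e1] at h1 h3
  rw [f1, f2, e1, e2] at h2 h4
  rcases lt_trichotomy |θ| (1 / 4) with h | h | h
  · exact ap3_alt _ θ h ⟨h3, h4⟩
  · have h5 : phi (t + b * s) = phi (t + b * s + 2 * θ) := h1.trans h2
    rcases eq_or_eq_neg_of_abs_eq h with h0 | h0
    · have : phi (t + b * s + 2 * θ) = -phi (t + b * s) := by
        rw [← phi_half]; congr 1; rw [h0]; ring
      rw [this] at h5
      rcases phi_cases' (t + b * s) with h6 | h6 <;> rw [h6] at h5 <;> norm_num at h5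
    · have : phi (t + b * s) = -phi (t + b * s + 2 * θ) := by
        rw [← phi_half]; congr 1; rw [h0]; ring
      rw [this] at h5
      rcases phi_cases' (t + b * s + 2 * θ) with h6 | h6 <;> rw [h6] at h5 <;> norm_num at h5
  · exact ap3_mono _ θ h hz2 ⟨h1, h2⟩

end Pool.Agent.Lib.MP_f6c41f_nt.RP
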