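import Pool.Agent.Lib.MP_f6c41f_nt.RP.PDefs

/-!
# MP_f6c41f_nt RP, row ApSym: reversal and complement

Proof.  `nc_rev`: induction on `k` (`Nc_succ`, `Nc_head`), or `Finset.sum_range_reflect`.  `ap_rev`: for `b + 2 a ≤ B` put
`b2 = B - b - 2 a`; the two blocks at `b`, `b + a` of the reversed word are the blocks at `b2 + a`, `b2` of `c`.
`nc_cmp`: induction on `k`.  `ap_cmp`: the parity of `a - Nc c b a` is that of `Nc c b a` for `a` even, and the opposite
one for `a` odd; in the second case exchange `b` and `b'`.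
-/

set_option autoImplicit false

namespace Pool.Agent.Lib.MP_f6c41f_nt.RP

open Finset Pool.Agent.Lib.MP_f6c41f_nt Pool.Agent.Lib.MP_f6c41f_nt.RT
open scoped Classical

theorem nc_rev (c : ℕ → ℕ) (B b k : ℕ) (h : b + k ≤ B) :
    Nc (fun i => c (B - 1 - i)) b k = Nc c (B - b - k) k := by
  induction k with
  | zero => rw [Nc_zero, Nc_zero]
  | succ k ih =>
    have e1 : B - b - (k + 1) + 1 = B - b - k := by omega
    have e2 : B - 1 - (b + k) = B - b - (k + 1) := by omega
    rw [Nc_succ, ih (by omega), Nc_head, e1, e2, add_comm]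

theorem ap_rev (c : ℕ → ℕ) (B : ℕ) (h : AP c B) : AP (fun i => c (B - 1 - i)) B := by
  intro a b b' ha hb hb'
  rw [nc_rev c B b a (by omega), nc_rev c B (b + a) a (by omega), nc_rev c B b' a (by omega),
    nc_rev c B (b' + a) a (by omega)]
  have e1 : B - b - a = B - b - 2 * a + a := by omega
  have e2 : B - (b + a) - a = B - b - 2 * a := by omega
  have e3 : B - b' - a = B - b' - 2 * a + a := by omega
  have e4 : B - (b' + a) - a = B - b' - 2 * a := by omega
  rw [e1, e2, e3, e4]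
  rintro ⟨h1, h2, h3, h4⟩
  exact h a (B - b - 2 * a) (B - b' - 2 * a) ha (by omega) (by omega) ⟨h2, h1, h4, h3⟩

theorem nc_cmp (c : ℕ → ℕ) (hc : ∀ i, c i ≤ 1) (b k : ℕ) :
    Nc (fun i => 1 - c i) b k + Nc c b k = k := by
  induction k with
  | zero => rw [Nc_zero, Nc_zero]
  | succ k ih =>
    rw [Nc_succ, Nc_succ]
    have := hc (b + k)
    omega

theorem ap_cmp (c : ℕ → ℕ) (hc : ∀ i, c i ≤ 1) (B : ℕ) (h : AP c B) :
    AP (fun i => 1 - c i) B := by
  intro a b b' ha hb hb'
  have h1 := nc_cmp c hc b a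
  have h2 := nc_cmp c hc (b + a) a
  have h3 := nc_cmp c hc b' a
  have h4 := nc_cmp c hc (b' + a) a
  rintro ⟨g1, g2, g3, g4⟩
  rw [Nat.even_iff] at g1 g2
  rw [Nat.odd_iff] at g3 g4
  rcases Nat.even_or_odd a with hev | hod
  · rw [Nat.even_iff] at hev
    refine h a b b' ha hb hb' ⟨?_, ?_, ?_, ?_⟩
    · rw [Nat.even_iff]
      omega
    · rw [Nat.even_iff]
      omega
    · rw [Nat.odd_iff]
      omega
    · rw [Nat.odd_iff]
      omega
  · rw [Nat.odd_iff] at hod
    refine h a b' b ha hb' hb ⟨?_, ?_, ?_, ?_⟩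
    · rw [Nat.even_iff]
      omega
    · rw [Nat.even_iff]
      omega
    · rw [Nat.odd_iff]
      omega
    · rw [Nat.odd_iff]
      omega

end Pool.Agent.Lib.MP_f6c41f_nt.RP
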