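import Pool.Agent.Lib.MP_f6c41f_nt.RP.ApLight
import Pool.Agent.Lib.MP_f6c41f_nt.RP.ApSym

/-!
# MP_f6c41f_nt RP, row ApBal: `AP` implies balanced, away from the ends

Proof.  Strong induction on `k`, for all `c` with `c ≤ 1` and `AP c B`.  `k = 0`: `Nc_zero`; `k = 1`: `Nc_le`; `b = b'` trivial.
`k ≥ 2`.  `AP` with `a = 1` (`Nc_one`): not both a `00` (`c i = c (i+1) = 0`, `i + 2 ≤ B`) and a `11` in `[0, B)`.
Claim for words without `11`: if `b' < b` it is `ap_light` with `p = b'`, `q = b`; if `b < b'` it is `ap_light` for the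
reversed word (`ap_rev`, no `11` either) with `p = B - b' - k < q = B - b - k` and `nc_rev`.  For words without `00` the
complement `1 - c` has no `11` (`ap_cmp`), and `nc_cmp` turns `Nc c b k ≤ Nc c b' k + 1` into the claim for
`1 - c` with `b` and `b'` exchanged.  The induction hypothesis (for all words) gives `ih` for the reversed and
complementary words.
-/

set_option autoImplicit false

namespace Pool.Agent.Lib.MP_f6c41f_nt.RP

open Finset Pool.Agent.Lib.MP_f6c41f_nt Pool.Agent.Lib.MP_f6c41f_nt.RT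
open scoped Classical

private theorem ApBal_no11 (B k : ℕ) (hk : 2 ≤ k)
    (ih : ∀ l < k, ∀ c : ℕ → ℕ, (∀ i, c i ≤ 1) → AP c B →
      ∀ b b' : ℕ, l * l ≤ b → b + l + l * l ≤ B → l * l ≤ b' → b' + l + l * l ≤ B →
      Nc c b l ≤ Nc c b' l + 1)
    (c : ℕ → ℕ) (hc : ∀ i, c i ≤ 1) (hAP : AP c B) (h11 : ∀ i, i + 2 ≤ B → c i + c (i + 1) ≤ 1)
    (b b' : ℕ) (hb1 : k * k ≤ b) (hb2 : b + k + k * k ≤ B) (hb'1 : k * k ≤ b') (hb'2 : b' + k + k * k ≤ B) :
    Nc c b k ≤ Nc c b' k + 1 := by
  rcases lt_trichotomy b b' with h | h | h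
  · have h1 := ap_light (fun i => c (B - 1 - i)) (fun i => hc _) B (ap_rev c B hAP)
      (by
        intro i hi
        have h2 := h11 (B - 2 - i) (by omega)
        have h3 : B - 2 - i + 1 = B - 1 - i := by omega
        have h4 : B - 1 - (i + 1) = B - 2 - i := by omega
        rw [h3] at h2
        show c (B - 1 - i) + c (B - 1 - (i + 1)) ≤ 1
        rw [h4]
        omega) k hk
      (fun l hl => ih l hl _ (fun i => hc _) (ap_rev c B hAP))
      (B - b' - k) (B - b - k) (by omega) (by omega) (by omega)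
    rw [nc_rev c B (B - b - k) k (by omega), nc_rev c B (B - b' - k) k (by omega)] at h1
    have h5 : B - (B - b - k) - k = b := by omega
    have h6 : B - (B - b' - k) - k = b' := by omega
    rw [h5, h6] at h1
    exact h1
  · rw [h]
    omega
  · exact ap_light c hc B hAP h11 k hk (fun l hl => ih l hl c hc hAP) b' b h hb'1 hb2

theorem ap_bal (B k : ℕ) : ∀ c : ℕ → ℕ, (∀ i, c i ≤ 1) → AP c B →
    ∀ b b' : ℕ, k * k ≤ b → b + k + k * k ≤ B → k * k ≤ b' → b' + k + k * k ≤ B →
      Nc c b k ≤ Nc c b' k + 1 := by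
  induction k using Nat.strong_induction_on with
  | _ k ih =>
    intro c hc hAP b b' hb1 hb2 hb'1 hb'2
    by_cases hk : 2 ≤ k
    · by_cases h11 : ∀ i, i + 2 ≤ B → c i + c (i + 1) ≤ 1
      · exact ApBal_no11 B k hk ih c hc hAP h11 b b' hb1 hb2 hb'1 hb'2
      · -- no `00`
        have h00 : ∀ i, i + 2 ≤ B → (1 - c i) + (1 - c (i + 1)) ≤ 1 := by
          intro i hi
          by_contra hcon
          apply h11
          intro j hj
          by_contra hcon2
          have hi1 := hc i
          have hi2 := hc (i + 1)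
          have hj1 := hc j
          have hj2 := hc (j + 1)
          have e1 : c i = 0 := by omega
          have e2 : c (i + 1) = 0 := by omega
          have e3 : c j = 1 := by omega
          have e4 : c (j + 1) = 1 := by omega
          refine hAP 1 i j le_rfl (by omega) (by omega) ?_
          rw [Nc_one, Nc_one, Nc_one, Nc_one, e1, e2, e3, e4]
          refine ⟨by decide, by decide, by decide, by decide⟩
        have h1 := ApBal_no11 B k hk ih (fun i => 1 - c i) (fun i => by show 1 - c i ≤ 1; omega) (ap_cmp c hc B hAP)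
          h00 b' b hb'1 hb'2 hb1 hb2
        have h2 := nc_cmp c hc b k
        have h3 := nc_cmp c hc b' k
        omega
    · have h1 := Nc_le c hc b k
      omega

end Pool.Agent.Lib.MP_f6c41f_nt.RP
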