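import Pool.Agent.Lib.MP_f6c41f_nt.RP.PDefs

/-!
# MP_f6c41f_nt RP, row ApDiv: the distance of a light and a heavy block is a multiple of `k`

Proof.  `j = (q - p) / k`, `r = (q - p) % k`, suppose `r > 0`; `q = p + j k + r`.  Two decompositions of
`Nc c p (q + k - p)`, `q + k - p = r + (j + 1) k`:
`Nc_add`, `Nc_mul`: `Nc c p r + Σ_{i < j+1} Nc c (p + r + i k) k = Nc c p r + j z + (z + 1)` (the blocks with `i < j` start
strictly between `p` and `q`, the last one at `q`); and `Σ_{i < j+1} Nc c (p + i k) k + Nc c (p + (j+1) k) r`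
`= (z - 1) + j z + Nc c (q + k - r) r` (the blocks with `1 ≤ i ≤ j` start strictly between, as `r > 0`).
So `Nc c (q + k - r) r = Nc c p r + 2`, contradiction to `hr`.
-/

set_option autoImplicit false

namespace Pool.Agent.Lib.MP_f6c41f_nt.RP

open Finset Pool.Agent.Lib.MP_f6c41f_nt Pool.Agent.Lib.MP_f6c41f_nt.RT
open scoped Classical

theorem ap_div (c : ℕ → ℕ) (k z p q : ℕ) (hk : 1 ≤ k) (hpq : p < q)
    (hp : Nc c p k + 1 = z) (hq : Nc c q k = z + 1) (hx : ∀ x, p < x → x < q → Nc c x k = z)
    (hr : ∀ r, r < k → Nc c (q + k - r) r ≤ Nc c p r + 1) : k ∣ q - p := by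
  by_contra hnd
  obtain ⟨j, r, hrk, hd⟩ : ∃ j r, r < k ∧ q - p = j * k + r :=
    ⟨(q - p) / k, (q - p) % k, Nat.mod_lt _ (by omega), by
      have := Nat.div_add_mod (q - p) k
      rw [mul_comm] at this
      exact this.symm⟩
  have hr0 : 0 < r := by
    rcases Nat.eq_zero_or_pos r with h | h
    · exact absurd ⟨j, by rw [hd, h, add_zero, mul_comm]⟩ hnd
    · exact h
  have hq' : q = p + j * k + r := by omega
  have h1 : Nc c p (r + (j + 1) * k) = Nc c p r + (j * z + (z + 1)) := by
    rw [Nc_add, Nc_mul, sum_range_succ]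
    have e1 : ∑ i ∈ range j, Nc c (p + r + i * k) k = ∑ _i ∈ range j, z := by
      refine sum_congr rfl fun i hi => ?_
      have hi' : i < j := mem_range.mp hi
      have : i * k < j * k := Nat.mul_lt_mul_of_pos_right hi' (by omega)
      exact hx _ (by omega) (by omega)
    rw [e1, sum_const, card_range, smul_eq_mul, show p + r + j * k = q by omega, hq]
  have h2 : Nc c p ((j + 1) * k + r) = Nc c p k + j * z + Nc c (q + k - r) r := by
    rw [Nc_add, Nc_mul, sum_range_succ']
    have e1 : ∑ i ∈ range j, Nc c (p + (i + 1) * k) k = ∑ _i ∈ range j, z := by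
      refine sum_congr rfl fun i hi => ?_
      have hi' : i + 1 ≤ j := mem_range.mp hi
      have h3 : (i + 1) * k ≤ j * k := Nat.mul_le_mul_right k hi'
      have h4 : 1 * k ≤ (i + 1) * k := Nat.mul_le_mul_right k (by omega)
      exact hx _ (by omega) (by omega)
    have e2 : (j + 1) * k = j * k + k := by ring
    rw [e1, sum_const, card_range, smul_eq_mul, e2, zero_mul, add_zero,
      show p + (j * k + k) = q + k - r by omega]
    ring
  have h3 := hr r hrk
  rw [add_comm] at h2
  omega

end Pool.Agent.Lib.MP_f6c41f_nt.RP
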