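import Pool.Agent.Lib.MP_f6c41f_nt.RP.PDefs

/-!
# MP_f6c41f_nt RP, row ApEven: distance `j k`, `j` even

Proof.  `j = 2 i`, `i ≥ 1`, `q = p + j k`.
Step 1.  `AP` with `a = k`: `Nc c (p + 1) k = z = Nc c (p + 1 + k) k` (`p + 1 + k < q` as `k ≥ 3`), while `Nc c q k = z + 1`; so
`Nc c (q + k) k` has not the parity of `z + 1` (whatever the parity of `z`: use `b = p + 1`, `b' = q` or `b = q`,
`b' = p + 1`), and by `hq2` `Nc c (q + k) k = z`.
Step 2.  By `Nc_shift`, `hqc`: `Nc c (q + k + 1) k = z + c (q + 2 k)`.  Let `a = (i + 1) k`, `2 a = j k + 2 k`.  By `Nc_mul`: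
`Nc c p a = (i + 1) z - 1` (`l = 0`: `z - 1`; `1 ≤ l ≤ i`: between); `Nc c (p + a) a = (i + 1) z + 1` (`l = i - 1`: block at `q`,
`l = i`: block at `q + k`, others between); `Nc c (p + 1) a = (i + 1) z`; `Nc c (p + 1 + a) a = (i + 1) z + c (q + 2 k)`
(`l = i - 1`: block at `q + 1`, `hq1`; `l = i`: block at `q + k + 1`).  If `c (q + 2 k) = 0` then `AP` for `a` with
`p`, `p + 1` (as in row ApOdd) is violated.  So `c (q + 2 k) ≠ 0`, i.e. by `h11` `c (q + 2 k) = 1`, and by `h11`
`c (q + 2 k + 1) = 0`.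
Step 3.  `a = k + 1`, `Nc_succ`: `Nc c q (k + 1) = z + 1 + c (q + k) = z + 1`, `Nc c (q + k + 1) (k + 1) = z + 1 + c (q + 2 k + 1) =
z + 1`; `Nc c p (k + 1) = z - 1 + c (p + k) = z`; `Nc c (p + k + 1) (k + 1) = z + c (p + 2 k + 1)`, and `c (p + 2 k + 1) = c (p + k + 1)` by
`Nc_shift` at `p + k + 1` (blocks at `p + k + 1` and `p + k + 2 < q`, `k ≥ 3`), `c (p + k + 1) = 0` by `h11` and `hpk`.
So `(z, z)` at `p` and `(z + 1, z + 1)` at `q`: contradiction to `AP` with `a = k + 1` (`q + 2 (k + 1) ≤ B`).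
-/

set_option autoImplicit false

namespace Pool.Agent.Lib.MP_f6c41f_nt.RP

open Finset Pool.Agent.Lib.MP_f6c41f_nt Pool.Agent.Lib.MP_f6c41f_nt.RT
open scoped Classical

theorem ap_even (c : ℕ → ℕ) (B : ℕ) (hAP : AP c B) (k z p j : ℕ) (hk : 3 ≤ k) (hj : Even j)
    (hj2 : 2 ≤ j) (hB : p + j * k + 2 * k + 2 ≤ B) (h11 : ∀ i, i + 2 ≤ B → c i + c (i + 1) ≤ 1)
    (hp : Nc c p k + 1 = z) (hq : Nc c (p + j * k) k = z + 1)
    (hx : ∀ x, p < x → x < p + j * k → Nc c x k = z)
    (hq2 : z ≤ Nc c (p + j * k + k) k + 1 ∧ Nc c (p + j * k + k) k ≤ z + 1)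
    (hqc : c (p + j * k + k) = 0) (hq1 : Nc c (p + j * k + 1) k = z) (hpk : c (p + k) = 1) :
    False := by
  have pv : ∀ a b b' y : ℕ, 1 ≤ a → b + 2 * a ≤ B → b' + 2 * a ≤ B → Nc c b a % 2 = y % 2 →
      Nc c (b + a) a % 2 = y % 2 → Nc c b' a % 2 = (y + 1) % 2 → Nc c (b' + a) a % 2 = (y + 1) % 2 →
      False := by
    intro a b b' y ha hb hb' h1 h2 h3 h4
    rcases Nat.even_or_odd y with hy | hy
    · rw [Nat.even_iff] at hy
      exact hAP a b b' ha hb hb' ⟨Nat.even_iff.2 (by omega), Nat.even_iff.2 (by omega),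
        Nat.odd_iff.2 (by omega), Nat.odd_iff.2 (by omega)⟩
    · rw [Nat.odd_iff] at hy
      exact hAP a b' b ha hb' hb ⟨Nat.even_iff.2 (by omega), Nat.even_iff.2 (by omega),
        Nat.odd_iff.2 (by omega), Nat.odd_iff.2 (by omega)⟩
  obtain ⟨i, hi⟩ := hj
  obtain ⟨i', rfl⟩ : ∃ i', i = i' + 1 := ⟨i - 1, by omega⟩
  obtain ⟨m, hm⟩ : ∃ m, m = i' * k := ⟨_, rfl⟩
  have hjk : j * k = 2 * m + 2 * k := by rw [hi, hm]; ring
  rw [hjk] at hB hq hx hq2 hqc hq1
  have hle : ∀ l, l ≤ i' → l * k ≤ m := by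
    intro l hl
    rw [hm]
    exact Nat.mul_le_mul_right k hl
  -- step 1
  have s1 : Nc c (p + (2 * m + 2 * k) + k) k = z := by
    by_contra hne
    refine pv k (p + 1) (p + (2 * m + 2 * k)) z (by omega) (by omega) (by omega) ?_ ?_ ?_ ?_
    · rw [hx (p + 1) (by omega) (by omega)]
    · rw [hx (p + 1 + k) (by omega) (by omega)]
    · rw [hq]
    · omega
  -- step 2
  have s2 : Nc c (p + (2 * m + 2 * k) + k + 1) k = z + c (p + (2 * m + 2 * k) + k + k) := by
    have h1 := Nc_shift c (p + (2 * m + 2 * k) + k) k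
    omega
  have ea : (i' + 2) * k = m + 2 * k := by rw [hm]; ring
  have A1 : Nc c p ((i' + 2) * k) + 1 = (i' + 2) * z := by
    rw [Nc_mul, sum_range_succ']
    have h1 : ∀ l ∈ range (i' + 1), Nc c (p + (l + 1) * k) k = z := by
      intro l hl
      rw [mem_range] at hl
      have h2 := hle l (by omega)
      have h3 : (l + 1) * k = l * k + k := by ring
      rw [h3]
      exact hx _ (by omega) (by omega)
    rw [sum_congr rfl h1, sum_const, card_range, smul_eq_mul, zero_mul, add_zero, add_assoc, hp]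
    ring
  have A2 : Nc c (p + (i' + 2) * k) ((i' + 2) * k) = (i' + 2) * z + 1 := by
    rw [Nc_mul, sum_range_succ, sum_range_succ]
    have h1 : ∀ l ∈ range i', Nc c (p + (i' + 2) * k + l * k) k = z := by
      intro l hl
      rw [mem_range] at hl
      have h2 := hle (l + 1) (by omega)
      have h3 : (l + 1) * k = l * k + k := by ring
      rw [ea]
      exact hx _ (by omega) (by omega)
    have e1 : p + (i' + 2) * k + i' * k = p + (2 * m + 2 * k) := by rw [hm]; ring
    have e2 : p + (i' + 2) * k + (i' + 1) * k = p + (2 * m + 2 * k) + k := by rw [hm]; ring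
    rw [sum_congr rfl h1, sum_const, card_range, smul_eq_mul, e1, e2, hq, s1]
    ring
  have A3 : Nc c (p + 1) ((i' + 2) * k) = (i' + 2) * z := by
    rw [Nc_mul]
    have h1 : ∀ l ∈ range (i' + 2), Nc c (p + 1 + l * k) k = z := by
      intro l hl
      rw [mem_range] at hl
      rcases l with _ | l
      · rw [zero_mul, add_zero]
        exact hx _ (by omega) (by omega)
      · have h2 := hle l (by omega)
        have h3 : (l + 1) * k = l * k + k := by ring
        rw [h3]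
        exact hx _ (by omega) (by omega)
    rw [sum_congr rfl h1, sum_const, card_range, smul_eq_mul]
  have A4 : Nc c (p + 1 + (i' + 2) * k) ((i' + 2) * k) =
      (i' + 2) * z + c (p + (2 * m + 2 * k) + k + k) := by
    rw [Nc_mul, sum_range_succ, sum_range_succ]
    have h1 : ∀ l ∈ range i', Nc c (p + 1 + (i' + 2) * k + l * k) k = z := by
      intro l hl
      rw [mem_range] at hl
      have h2 := hle (l + 1) (by omega)
      have h3 : (l + 1) * k = l * k + k := by ring
      rw [ea]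
      exact hx _ (by omega) (by omega)
    have e1 : p + 1 + (i' + 2) * k + i' * k = p + (2 * m + 2 * k) + 1 := by rw [hm]; ring
    have e2 : p + 1 + (i' + 2) * k + (i' + 1) * k = p + (2 * m + 2 * k) + k + 1 := by rw [hm]; ring
    rw [sum_congr rfl h1, sum_const, card_range, smul_eq_mul, e1, e2, hq1, s2]
    ring
  have s3 : c (p + (2 * m + 2 * k) + k + k) ≠ 0 := by
    intro h0
    rw [h0, add_zero] at A4
    have ea2 : 2 * ((i' + 2) * k) = 2 * m + 4 * k := by rw [ea]; ring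
    refine pv ((i' + 2) * k) (p + 1) p ((i' + 2) * z) (by omega) (by omega) (by omega) ?_ ?_ ?_ ?_
    · rw [A3]
    · rw [A4]
    · omega
    · rw [A2]
  have h4 := h11 (p + (2 * m + 2 * k) + k + k) (by omega)
  -- step 3
  have t1 := Nc_succ c (p + (2 * m + 2 * k)) k
  have t2 := Nc_succ c (p + (2 * m + 2 * k) + k + 1) k
  have t3 := Nc_succ c p k
  have t4 := Nc_succ c (p + k + 1) k
  have t5 := Nc_shift c (p + k + 1) k
  have t6 := hx (p + k + 1) (by omega) (by omega)
  have t7 := hx (p + k + 1 + 1) (by omega) (by omega)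
  have t8 := h11 (p + k) (by omega)
  have e3 : p + (2 * m + 2 * k) + k + 1 + k = p + (2 * m + 2 * k) + k + k + 1 := by ring
  rw [e3] at t2
  refine pv (k + 1) p (p + (2 * m + 2 * k)) z (by omega) (by omega) (by omega) ?_ ?_ ?_ ?_
  · omega
  · have e4 : p + (k + 1) = p + k + 1 := by ring
    rw [e4]
    omega
  · omega
  · have e4 : p + (2 * m + 2 * k) + (k + 1) = p + (2 * m + 2 * k) + k + 1 := by ring
    rw [e4]
    omega

end Pool.Agent.Lib.MP_f6c41f_nt.RP
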