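import Pool.Agent.Lib.MP_f6c41f_nt.RP.PDefs

/-!
# MP_f6c41f_nt RP, row ApOdd: distance `j k`, `j` odd

Proof.  `j = 2 i + 1`, `q = p + j k`, `a = (i + 1) k`, so `2 a = j k + k`.  By `Nc_mul`:
`Nc c p a = Σ_{l < i+1} Nc c (p + l k) k = (i + 1) z - 1` (`l = 0`: `z - 1`; `1 ≤ l ≤ i`: strictly between `p` and `q`);
`Nc c (p + a) a = (i + 1) z + 1` (`l = i` is the block at `q`);
`Nc c (p + 1) a = (i + 1) z` (`p + 1 + l k < q` for `l ≤ i`, as `1 + i k < (2 i + 1) k`);
`Nc c (p + 1 + a) a = (i + 1) z` (`l < i`: `p + 1 + (i + 1 + l) k < q` since `1 < k`; `l = i`: the block at `q + 1`, `hq1`).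
If `(i + 1) z` is even, `AP` for `a`, `b = p + 1` (even, even), `b' = p` (odd, odd); if it is odd, `b = p`, `b' = p + 1`.
Ranges: `p + 1 + 2 a = p + j k + k + 1 ≤ B`.
-/

set_option autoImplicit false

namespace Pool.Agent.Lib.MP_f6c41f_nt.RP

open Finset Pool.Agent.Lib.MP_f6c41f_nt Pool.Agent.Lib.MP_f6c41f_nt.RT
open scoped Classical

theorem ap_odd (c : ℕ → ℕ) (B : ℕ) (hAP : AP c B) (k z p j : ℕ) (hk : 2 ≤ k) (hj : Odd j)
    (hB : p + j * k + k + 1 ≤ B) (hp : Nc c p k + 1 = z) (hq : Nc c (p + j * k) k = z + 1)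
    (hx : ∀ x, p < x → x < p + j * k → Nc c x k = z) (hq1 : Nc c (p + j * k + 1) k = z) : False := by
  obtain ⟨i, rfl⟩ := hj
  have hmul : ∀ l : ℕ, (l + 1) * k = l * k + k := fun l => by ring
  have hmono : ∀ l m : ℕ, l ≤ m → l * k ≤ m * k := fun l m h => Nat.mul_le_mul_right k h
  have e1 : Nc c p ((i + 1) * k) + 1 = (i + 1) * z := by
    rw [Nc_mul, sum_range_succ']
    have h : ∑ l ∈ range i, Nc c (p + (l + 1) * k) k = i * z := by
      rw [sum_congr rfl (g := fun _ => z)]
      · simp
      · intro l hl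
        have hl' : l < i := mem_range.1 hl
        refine hx _ ?_ ?_
        · have := hmul l
          omega
        · have h1 := hmono (l + 1 + 1) (2 * i + 1) (by omega)
          have h2 := hmul (l + 1)
          omega
    rw [h, zero_mul, add_zero, add_assoc, hp]
    ring
  have e2 : Nc c (p + (i + 1) * k) ((i + 1) * k) = (i + 1) * z + 1 := by
    rw [Nc_mul, sum_range_succ]
    have h : ∑ l ∈ range i, Nc c (p + (i + 1) * k + l * k) k = i * z := by
      rw [sum_congr rfl (g := fun _ => z)]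
      · simp
      · intro l hl
        have hl' : l < i := mem_range.1 hl
        have h3 : p + (i + 1) * k + l * k = p + (i + 1 + l) * k := by ring
        rw [h3]
        refine hx _ ?_ ?_
        · have h1 := hmono 1 (i + 1 + l) (by omega)
          omega
        · have h1 := hmono (i + 1 + l + 1) (2 * i + 1) (by omega)
          have h2 := hmul (i + 1 + l)
          omega
    have h4 : p + (i + 1) * k + i * k = p + (2 * i + 1) * k := by ring
    rw [h, h4, hq]
    ring
  have e3 : Nc c (p + 1) ((i + 1) * k) = (i + 1) * z := by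
    rw [Nc_mul, sum_congr rfl (g := fun _ => z)]
    · simp
    · intro l hl
      have hl' : l < i + 1 := mem_range.1 hl
      refine hx _ (by omega) ?_
      have h1 := hmono (l + 1) (2 * i + 1) (by omega)
      have h2 := hmul l
      omega
  have e4 : Nc c (p + 1 + (i + 1) * k) ((i + 1) * k) = (i + 1) * z := by
    rw [Nc_mul, sum_range_succ]
    have h : ∑ l ∈ range i, Nc c (p + 1 + (i + 1) * k + l * k) k = i * z := by
      rw [sum_congr rfl (g := fun _ => z)]
      · simp
      · intro l hl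
        have hl' : l < i := mem_range.1 hl
        have h3 : p + 1 + (i + 1) * k + l * k = p + 1 + (i + 1 + l) * k := by ring
        rw [h3]
        refine hx _ (by omega) ?_
        have h1 := hmono (i + 1 + l + 1) (2 * i + 1) (by omega)
        have h2 := hmul (i + 1 + l)
        omega
    have h4 : p + 1 + (i + 1) * k + i * k = p + (2 * i + 1) * k + 1 := by ring
    rw [h, h4, hq1]
    ring
  have ha : 1 ≤ (i + 1) * k := Nat.mul_pos (Nat.succ_pos i) (by omega)
  have hr : p + 1 + 2 * ((i + 1) * k) ≤ B := by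
    have : p + 1 + 2 * ((i + 1) * k) = p + (2 * i + 1) * k + k + 1 := by ring
    omega
  rcases Nat.even_or_odd ((i + 1) * z) with hz | hz
  · refine hAP ((i + 1) * k) (p + 1) p ha hr (by omega) ⟨?_, ?_, ?_, ?_⟩
    · rw [e3]; exact hz
    · rw [e4]; exact hz
    · rw [← e1] at hz
      exact (Nat.even_add_one.1 hz |> Nat.not_even_iff_odd.1)
    · rw [e2]
      exact hz.add_one
  · refine hAP ((i + 1) * k) p (p + 1) ha (by omega) hr ⟨?_, ?_, ?_, ?_⟩
    · rw [← e1] at hz
      exact Nat.not_odd_iff_even.1 (Nat.odd_add_one.1 hz)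
    · rw [e2]
      exact hz.add_one
    · rw [e3]; exact hz
    · rw [e4]; exact hz

end Pool.Agent.Lib.MP_f6c41f_nt.RP
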