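import Pool.Agent.Lib.MP_f6c41f_nt.RP.ApDiv
import Pool.Agent.Lib.MP_f6c41f_nt.RP.ApOdd
import Pool.Agent.Lib.MP_f6c41f_nt.RP.ApEven

/-!
# MP_f6c41f_nt RP, row ApLight: no light block before a heavy block, if there is no `11`

Here `ih` is the induction hypothesis for all shorter lengths (margins `l * l`).
Proof.  Suppose there are `p < q` in range (`k k ≤ p`, `q + k + k k ≤ B`) with `Nc c p k + 2 ≤ Nc c q k`; choose such a pair
with `q - p` minimal, `z = Nc c p k + 1`.  Extended range: `(k-1)(k-1) ≤ b`, `b + k + (k-1)(k-1) ≤ B`.  For two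
positions `b, b'` in the extended range: `Nc c b k ≤ Nc c b (k-1) + 1 ≤ Nc c b' (k-1) + 2 ≤ Nc c b' k + 2` (`ih (k-1)`,
`Nc_succ`).  So `Nc c q k = z + 1`, and for every `x` in the extended range `z ≤ Nc c x k + 1` (compare with `q`) and
`Nc c x k ≤ z + 1` (compare with `p`).  For `p < x < q`: `Nc c x k = z`, since `Nc c x k ≤ z - 1` would make `(x, q)` a closer
pair and `≥ z + 1` would make `(p, x)` one.
`k = 2`: `Nc c q 2 ≥ 2` contradicts `h11`; so `k ≥ 3`.  `q ≠ p + 1` (`Nc_shift`: the counts of neighbours differ by at most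
one); `Nc_shift` at `p` (`p + 1 < q`): `c (p + k) = 1`, `c p = 0`; `Nc_shift` at `q - 1`: `c (q + k - 1) = 1`.
`c q = 1`: `Nc_head`: `Nc c (p+1) (k-1) = z - 1` (as `c p = 0`), `Nc c (q+1) (k-1) = z + 1 - c q`, and `ih (k-1)` (blocks at
`p + 1`, `q + 1`, in range) gives `z + 1 - c q ≤ z`.  `c (q + k) = 0` by `h11` at `q + k - 1`.  `Nc_shift` at `q`:
`Nc c (q + 1) k = z + 1 + c (q + k) - c q = z`.
`ap_div` (`hr` is `ih r`): `q = p + j k`.  If `j` is odd: `ap_odd`; if even (`j ≥ 2` as `q > p`): `ap_even`, with `hq2` from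
the extended range (`q + k + k + (k-1)(k-1) ≤ B` because `k k - (k-1)(k-1) = 2 k - 1 ≥ k`).  Ranges: `k k ≥ k + 2` for `k ≥ 2`.
-/

set_option autoImplicit false

namespace Pool.Agent.Lib.MP_f6c41f_nt.RP

open Finset Pool.Agent.Lib.MP_f6c41f_nt Pool.Agent.Lib.MP_f6c41f_nt.RT
open scoped Classical

theorem ap_light (c : ℕ → ℕ) (hc : ∀ i, c i ≤ 1) (B : ℕ) (hAP : AP c B)
    (h11 : ∀ i, i + 2 ≤ B → c i + c (i + 1) ≤ 1) (k : ℕ) (hk : 2 ≤ k)
    (ih : ∀ l < k, ∀ b b' : ℕ, l * l ≤ b → b + l + l * l ≤ B → l * l ≤ b' → b' + l + l * l ≤ B →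
      Nc c b l ≤ Nc c b' l + 1)
    (p q : ℕ) (hpq : p < q) (hp : k * k ≤ p) (hq : q + k + k * k ≤ B) :
    Nc c q k ≤ Nc c p k + 1 := by
  -- a closest bad pair
  have key : ∀ n : ℕ, ∀ p q : ℕ, q - p = n → p < q → k * k ≤ p → q + k + k * k ≤ B →
      Nc c q k ≤ Nc c p k + 1 := by
    intro n
    induction n using Nat.strong_induction_on with
    | _ n IH =>
      intro p q hn hpq hp hq
      by_contra hcon
      have hbad : Nc c p k + 2 ≤ Nc c q k := by omega
      have hmin : ∀ p' q' : ℕ, q' - p' < q - p → p' < q' → k * k ≤ p' → q' + k + k * k ≤ B →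
          Nc c q' k ≤ Nc c p' k + 1 := by
        intro p' q' h1 h2 h3 h4
        exact IH (q' - p') (by omega) p' q' rfl h2 h3 h4
      obtain ⟨l, rfl⟩ : ∃ l, k = l + 1 := ⟨k - 1, by omega⟩
      have hsq : (l + 1) * (l + 1) = l * l + 2 * l + 1 := by ring
      have hl : 1 ≤ l := by omega
      have ihl := ih l (by omega)
      have hkey : ∀ b b' : ℕ, l * l ≤ b → b + (l + 1) + l * l ≤ B → l * l ≤ b' →
          b' + (l + 1) + l * l ≤ B → Nc c b (l + 1) ≤ Nc c b' (l + 1) + 2 := by
        intro b b' h1 h2 h3 h4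
        have h5 := ihl b b' h1 (by omega) h3 (by omega)
        rw [Nc_succ, Nc_succ]
        have h6 := hc (b + l)
        omega
      obtain ⟨z, hz⟩ : ∃ z, Nc c p (l + 1) + 1 = z := ⟨_, rfl⟩
      have hqz : Nc c q (l + 1) = z + 1 := by
        have := hkey q p (by omega) (by omega) (by omega) (by omega)
        omega
      have hext : ∀ x, l * l ≤ x → x + (l + 1) + l * l ≤ B →
          z ≤ Nc c x (l + 1) + 1 ∧ Nc c x (l + 1) ≤ z + 1 := by
        intro x h1 h2
        have h3 := hkey q x (by omega) (by omega) h1 h2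
        have h4 := hkey x p h1 h2 (by omega) (by omega)
        constructor <;> omega
      have hx : ∀ x, p < x → x < q → Nc c x (l + 1) = z := by
        intro x h1 h2
        have h3 := hmin x q (by omega) h2 (by omega) hq
        have h4 := hmin p x (by omega) h1 hp (by omega)
        omega
      have hl2 : 2 ≤ l := by
        rcases Nat.lt_or_ge l 2 with h | h
        · have hl1 : l = 1 := by omega
          subst hl1
          have h1 := h11 q (by omega)
          rw [Nc_succ, Nc_one] at hqz
          omega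
        · exact h
      have hne : q ≠ p + 1 := by
        intro h
        have h1 := Nc_shift c p (l + 1)
        rw [← h] at h1
        have h2 := hc (p + (l + 1))
        omega
      have hp1 := hx (p + 1) (by omega) (by omega)
      have hsp := Nc_shift c p (l + 1)
      have hcpk := hc (p + (l + 1))
      have hcp0 : c p = 0 := by omega
      have hpk : c (p + (l + 1)) = 1 := by omega
      obtain ⟨q', rfl⟩ : ∃ q', q = q' + 1 := ⟨q - 1, by omega⟩
      have hq'z := hx q' (by omega) (by omega)
      have hsq' := Nc_shift c q' (l + 1)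
      have hcq'k := hc (q' + (l + 1))
      have hcq'k1 : c (q' + (l + 1)) = 1 := by omega
      -- the first letter of the heavy block
      have hhp := Nc_head c p l
      have hhq := Nc_head c (q' + 1) l
      have hih := ihl (q' + 1 + 1) (p + 1) (by omega) (by omega) (by omega) (by omega)
      have hcq := hc (q' + 1)
      have hcq1 : c (q' + 1) = 1 := by omega
      have hcqk0 : c (q' + 1 + (l + 1)) = 0 := by
        have h1 := h11 (q' + (l + 1)) (by omega)
        have h2 : q' + (l + 1) + 1 = q' + 1 + (l + 1) := by ring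
        rw [h2] at h1
        omega
      have hq1 : Nc c (q' + 1 + 1) (l + 1) = z := by
        have h1 := Nc_shift c (q' + 1) (l + 1)
        omega
      have hdvd : (l + 1) ∣ (q' + 1) - p := by
        apply ap_div c (l + 1) z p (q' + 1) (by omega) hpq hz hqz hx
        intro r hr
        have hrr : r * r ≤ (l + 1) * (l + 1) := Nat.mul_le_mul hr.le hr.le
        have h1 : q' + 1 + (l + 1) - r + r = q' + 1 + (l + 1) := by omega
        exact ih r hr (q' + 1 + (l + 1) - r) p (by omega) (by rw [h1]; omega) (by omega) (by omega)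
      obtain ⟨j, hj⟩ := hdvd
      have hqj : q' + 1 = p + j * (l + 1) := by
        rw [mul_comm j (l + 1)]
        omega
      rw [hqj] at hqz hcqk0 hq1 hq hx hpq
      rcases Nat.even_or_odd j with hje | hjo
      · have hj2 : 2 ≤ j := by
          rcases Nat.lt_or_ge j 2 with h | h
          · interval_cases j
            · omega
            · exact absurd hje (by decide)
          · exact h
        have hll : 2 * l ≤ l * l := Nat.mul_le_mul_right l hl2
        exact ap_even c B hAP (l + 1) z p j (by omega) hje hj2 (by omega) h11 hz hqz hx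
          (hext (p + j * (l + 1) + (l + 1)) (by omega) (by omega)) hcqk0 hq1 hpk
      · exact ap_odd c B hAP (l + 1) z p j (by omega) hjo (by omega) hz hqz hx hq1
  exact key (q - p) p q rfl hpq hp hq

end Pool.Agent.Lib.MP_f6c41f_nt.RP
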