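import Pool.Agent.Lib.MP_f6c41f_nt.RP.ApBal
import Pool.Agent.Lib.MP_f6c41f_nt.RT.Mec

/-!
# MP_f6c41f_nt RP, row CodP: a window without violations is coded in the middle

Proof.  Let `w i = f (n + i)`, `B = 2 L^2 + L`.  For signs `w (b + a) = w b (-1)^(Nc (chg w) b a)` (induction on `a`), so
`VioP w a b b'` iff the two blocks at `b` are even and the two blocks at `b'` are odd: no violation gives
`AP (chg w) B` (theorem `ap_of_vio`).  `ap_bal` for `k ≤ L`: blocks inside `[L^2, L^2 + L]` are balanced (`k k ≤ L L`).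
So the word `w' i = f (n + L L + i)` satisfies `Σ_{i<k} chg w' (b + i) ≤ Σ_{i<k} chg w' (b' + i) + 1` for `b + k ≤ L`,
`b' + k ≤ L` (`chg w' i = chg w (L L + i)` by associativity of `+`).  Theorem `cowB` is the proof of `cow` in `RT/Cow`
(file on main; copy its private lemmas `cow_word`, `cow_between` with new names) starting from `mec` with this
hypothesis instead of `bld`.
-/

set_option autoImplicit false

namespace Pool.Agent.Lib.MP_f6c41f_nt.RP

open Finset Pool.Agent.Lib.MP_f6c41f_nt Pool.Agent.Lib.MP_f6c41f_nt.RT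
open scoped Classical

private lemma codp_word {w : ℕ → ℝ} (hw : ∀ i, w i = 1 ∨ w i = -1) (b j : ℕ) :
    w (b + j) = w b * (-1) ^ (Nc (chg w) b j) := by
  induction j with
  | zero => simp [Nc_zero]
  | succ j ih =>
    rw [Nc_succ, pow_add, ← mul_assoc, ← ih]
    unfold chg
    split_ifs with h1
    · rw [pow_zero, mul_one, h1, add_assoc]
    · have e : b + (j + 1) = b + j + 1 := by ring
      rw [e]
      rcases hw (b + j) with h2 | h2 <;> rcases hw (b + j + 1) with h3 | h3 <;> rw [h2, h3] at h1 ⊢ <;>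
        first | exact absurd rfl h1 | norm_num

private lemma codp_even {w : ℕ → ℝ} (hw : ∀ i, w i = 1 ∨ w i = -1) (b j : ℕ)
    (h : Even (Nc (chg w) b j)) : w b = w (b + j) := by
  rw [codp_word hw b j, h.neg_one_pow, mul_one]

private lemma codp_odd {w : ℕ → ℝ} (hw : ∀ i, w i = 1 ∨ w i = -1) (b j : ℕ)
    (h : Odd (Nc (chg w) b j)) : w b = -w (b + j) := by
  rw [codp_word hw b j, h.neg_one_pow]
  ring

private lemma codp_chg_le (w : ℕ → ℝ) (i : ℕ) : chg w i ≤ 1 := by
  unfold chg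
  split_ifs <;> omega

theorem ap_of_vio (w : ℕ → ℝ) (hw : ∀ i, w i = 1 ∨ w i = -1) (B : ℕ)
    (hv : ∀ a b b' : ℕ, 1 ≤ a → b + 2 * a ≤ B → b' + 2 * a ≤ B → ¬ VioP w a b b') :
    AP (chg w) B := by
  intro a b b' ha hb hb' h
  obtain ⟨h1, h2, h3, h4⟩ := h
  refine hv a b b' ha hb hb' ⟨codp_even hw b a h1, ?_, codp_odd hw b' a h3, ?_⟩
  · have e : b + 2 * a = b + a + a := by ring
    rw [e]
    exact codp_even hw (b + a) a h2
  · have e : b' + 2 * a = b' + a + a := by ring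
    rw [e]
    exact codp_odd hw (b' + a) a h4

private lemma codp_word0 {w : ℕ → ℝ} (hw : ∀ i, w i = 1 ∨ w i = -1) (j : ℕ) :
    w j = w 0 * (-1) ^ (∑ i ∈ range j, chg w i) := by
  have h := codp_word hw 0 j
  simpa [Nc] using h

private lemma codp_between {x : ℝ} {n : ℕ} (h1 : (n : ℝ) < 2 * x) (h2 : 2 * x < (n : ℝ) + 1) :
    Str x ∧ phi x = (-1) ^ n := by
  have hfl : ⌊2 * x⌋ = (n : ℤ) := by
    rw [Int.floor_eq_iff]
    push_cast
    exact ⟨h1.le, h2⟩
  constructor
  · intro m hm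
    rw [hm] at h1 h2
    have h3 : (n : ℤ) < m := by exact_mod_cast h1
    have h4 : m < (n : ℤ) + 1 := by exact_mod_cast h2
    omega
  · rw [phi_floor, hfl]
    rcases Nat.even_or_odd n with h | h
    · rw [if_pos ((Int.even_coe_nat n).mpr h), h.neg_one_pow]
    · rw [if_neg, h.neg_one_pow]
      rw [Int.even_coe_nat, Nat.not_even_iff_odd]
      exact h

theorem cowB (w : ℕ → ℝ) (hw : ∀ i, w i = 1 ∨ w i = -1) (L : ℕ)
    (hbal : ∀ k b b' : ℕ, b + k ≤ L → b' + k ≤ L →
      ∑ i ∈ range k, chg w (b + i) ≤ ∑ i ∈ range k, chg w (b' + i) + 1) :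
    ∃ s t : ℝ, ∀ h : ℕ, h ≤ L → Str (t + h * s) ∧ w h = phi (t + h * s) := by
  obtain ⟨u, v, huv⟩ := mec (chg w) L hbal
  rcases hw 0 with h0 | h0
  · refine ⟨v / 2, u / 2, fun h hh => ?_⟩
    obtain ⟨h1, h2⟩ := huv h hh
    have e : 2 * (u / 2 + h * (v / 2)) = u + h * v := by ring
    obtain ⟨h3, h4⟩ := codp_between (x := u / 2 + h * (v / 2)) (n := ∑ i ∈ range h, chg w i)
      (by rw [e]; exact h1) (by rw [e]; exact h2)
    refine ⟨h3, ?_⟩
    rw [h4, codp_word0 hw h, h0, one_mul]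
  · refine ⟨v / 2, u / 2 + 1 / 2, fun h hh => ?_⟩
    obtain ⟨h1, h2⟩ := huv h hh
    have e : 2 * (u / 2 + 1 / 2 + h * (v / 2)) = u + h * v + 1 := by ring
    obtain ⟨h3, h4⟩ := codp_between (x := u / 2 + 1 / 2 + h * (v / 2))
      (n := ∑ i ∈ range h, chg w i + 1)
      (by rw [e]; push_cast at h1 ⊢; linarith) (by rw [e]; push_cast at h2 ⊢; linarith)
    refine ⟨h3, ?_⟩
    rw [h4, codp_word0 hw h, h0, pow_succ]
    ring

theorem codP {f : ℕ → ℝ} (hf : Sg f) (L n : ℕ)
    (hv : ∀ a b b' : ℕ, 1 ≤ a → b + 2 * a ≤ 2 * (L * L) + L → b' + 2 * a ≤ 2 * (L * L) + L →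
      ¬ VioP (fun i => f (n + i)) a b b') : ∃ s t, Cod f L (n + L * L) s t := by
  have hAP := ap_of_vio (fun i => f (n + i)) (fun i => hf _) _ hv
  have hch : ∀ i, chg (fun i => f (n + L * L + i)) i = chg (fun i => f (n + i)) (L * L + i) := by
    intro i
    unfold chg
    simp only [add_assoc]
  have hbal : ∀ k b b' : ℕ, b + k ≤ L → b' + k ≤ L →
      ∑ i ∈ range k, chg (fun i => f (n + L * L + i)) (b + i) ≤
        ∑ i ∈ range k, chg (fun i => f (n + L * L + i)) (b' + i) + 1 := by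
    intro k b b' hb hb'
    have hk : k * k ≤ L * L := Nat.mul_le_mul (by omega) (by omega)
    have h := ap_bal (2 * (L * L) + L) k (chg fun i => f (n + i)) (codp_chg_le _) hAP
      (L * L + b) (L * L + b') (by omega) (by omega) (by omega) (by omega)
    unfold Nc at h
    simp only [hch]
    simpa only [add_assoc] using h
  obtain ⟨s, t, h⟩ := cowB (fun i => f (n + L * L + i)) (fun i => hf _) L hbal
  exact ⟨s, t, fun j hj => h j hj⟩

end Pool.Agent.Lib.MP_f6c41f_nt.RP
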