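import Pool.Agent.Lib.MP_f6c41f_nt.RP.MainP

/-!
# MP_f6c41f_nt RP: the theorem with parallelograms for all large `X`
-/

set_option autoImplicit false

namespace Pool.Agent.Lib.MP_f6c41f_nt.RP

open Finset Pool.Agent.Lib.MP_f6c41f_nt Pool.Agent.Lib.MP_f6c41f_nt.RT

theorem finalP : ∃ X0 : ℝ, ∀ X : ℝ, X0 ≤ X → ∀ f : ℕ → ℝ, Sg f → Mul f →
    ∃ N : ℕ, X ^ (1 / 3 : ℝ) ≤ N ∧ (N : ℝ) ≤ X ∧ ∃ a b : ℕ, 1 ≤ a ∧ (a : ℝ) ≤ Real.log N ^ 100 ∧
      1 ≤ b ∧ (b : ℝ) ≤ Real.log N ^ 100 ∧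
      1 / Real.log N ^ 200 <
        |(1 / (N : ℝ)) * ∑ n ∈ Icc 1 N, f n * f (n + a) * f (n + b) * f (n + a + b) -
          ∫ t in (0:ℝ)..1, ∫ s in (0:ℝ)..1,
            phi t * phi (t + a * s) * phi (t + b * s) * phi (t + (a + b) * s)| := by
  obtain ⟨r0, hcore⟩ := coreP
  refine ⟨4 * 32 ^ (max r0 8), fun X hX f hf hm => ?_⟩
  by_contra hcon
  push Not at hcon
  set m : ℕ := ⌊X / 4⌋₊ with hmdef
  set r : ℕ := Nat.log 32 m with hr
  have hX4 : (32 : ℝ) ^ (max r0 8) ≤ X / 4 := by linarith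
  have hm1 : 32 ^ (max r0 8) ≤ m := by
    refine Nat.le_floor ?_
    push_cast
    exact hX4
  have hm0 : m ≠ 0 := by
    have : 0 < 32 ^ (max r0 8) := by positivity
    omega
  have hr0 : max r0 8 ≤ r := Nat.le_log_of_pow_le (by norm_num) hm1
  have hr8 : 8 ≤ r := (le_max_right _ _).trans hr0
  have h32 : (0 : ℝ) < 32 ^ (max r0 8) := by positivity
  have hX0 : 0 < X := by linarith
  have h1 : (32 : ℝ) ^ r ≤ X / 4 := by
    have h2 : 32 ^ r ≤ m := Nat.pow_log_le_self 32 hm0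
    have h3 : ((32 ^ r : ℕ) : ℝ) ≤ m := by exact_mod_cast h2
    push_cast at h3
    exact h3.trans (Nat.floor_le (by positivity))
  have h2 : X / 4 < (32 : ℝ) ^ (r + 1) := by
    have h3 : m < 32 ^ (r + 1) := Nat.lt_pow_succ_log_self (by norm_num) m
    have h4 : ((m : ℕ) : ℝ) + 1 ≤ 32 ^ (r + 1) := by exact_mod_cast h3
    exact (Nat.lt_floor_add_one (X / 4)).trans_le h4
  have hrpos : (0 : ℝ) < r := by
    have : 0 < r := by omega
    exact_mod_cast this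
  refine hcore r ((le_max_left _ _).trans hr0) f hf hm fun N hN1 hN2 a b ha haB hb hbB => ?_
  have hN1' : (4 : ℝ) ^ r ≤ N := by exact_mod_cast hN1
  have hN2' : (N : ℝ) ≤ 4 * 32 ^ r := by exact_mod_cast hN2
  have hN0 : (0 : ℝ) < N := lt_of_lt_of_le (by positivity) hN1'
  have hrlog : (r : ℝ) ≤ Real.log N := by
    rw [Real.le_log_iff_exp_le hN0]
    have h3 : Real.exp r = Real.exp 1 ^ r := by
      rw [← Real.exp_nat_mul, mul_one]
    have h4 : Real.exp 1 ≤ 4 := by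
      have := Real.exp_one_lt_d9
      linarith
    rw [h3]
    exact (pow_le_pow_left₀ (Real.exp_pos 1).le h4 r).trans hN1'
  have hNX : (N : ℝ) ≤ X := by linarith
  have hXN : X ^ (1 / 3 : ℝ) ≤ N := by
    have h3 : X ≤ (N : ℝ) ^ 3 := by
      have h4 : (128 : ℝ) ≤ 2 ^ r := by
        calc (128 : ℝ) ≤ 2 ^ 8 := by norm_num
          _ ≤ 2 ^ r := pow_le_pow_right₀ (by norm_num) hr8
      have h5 : (64 : ℝ) ^ r = 2 ^ r * 32 ^ r := by
        rw [← mul_pow]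
        norm_num
      have h6 : (64 : ℝ) ^ r = (4 ^ r) ^ 3 := by
        rw [← pow_mul, mul_comm r 3, pow_mul]
        norm_num
      have h7 : (0 : ℝ) < 32 ^ r := by positivity
      have h8 : (128 : ℝ) * 32 ^ r ≤ 2 ^ r * 32 ^ r := mul_le_mul_of_nonneg_right h4 h7.le
      have h9 : ((4 : ℝ) ^ r) ^ 3 ≤ (N : ℝ) ^ 3 := pow_le_pow_left₀ (by positivity) hN1' 3
      rw [pow_succ] at h2
      linarith
    calc X ^ (1 / 3 : ℝ) ≤ ((N : ℝ) ^ 3) ^ (1 / 3 : ℝ) :=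
          Real.rpow_le_rpow hX0.le h3 (by norm_num)
      _ = N := by
          rw [← Real.rpow_natCast, ← Real.rpow_mul (Nat.cast_nonneg N)]
          norm_num
  have hBr : ∀ c : ℕ, c ≤ 2 * (r ^ 30 * r ^ 30) + r ^ 30 → (c : ℝ) ≤ Real.log N ^ 100 := by
    intro c hc
    have h3 : 2 * (r ^ 30 * r ^ 30) + r ^ 30 ≤ r ^ 100 := by
      have e1 : r ^ 30 ≤ r ^ 60 := Nat.pow_le_pow_right (by omega) (by norm_num)
      have e2 : r ^ 30 * r ^ 30 = r ^ 60 := by ring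
      have e3 : r ^ 61 = r * r ^ 60 := by ring
      have e4 : r ^ 61 ≤ r ^ 100 := Nat.pow_le_pow_right (by omega) (by norm_num)
      have e5 : 8 * r ^ 60 ≤ r * r ^ 60 := Nat.mul_le_mul_right _ hr8
      rw [e2]; omega
    have h4 : (c : ℝ) ≤ (r : ℝ) ^ 100 := by exact_mod_cast hc.trans h3
    exact h4.trans (pow_le_pow_left₀ hrpos.le hrlog 100)
  refine (hcon N hXN hNX a b ha (hBr a haB) hb (hBr b hbB)).trans ?_
  exact one_div_le_one_div_of_le (by positivity) (pow_le_pow_left₀ hrpos.le hrlog 200)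

end Pool.Agent.Lib.MP_f6c41f_nt.RP
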