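import Pool.Agent.Lib.MP_f6c41f_nt.RP.PDefs
import Pool.Agent.Lib.MP_f6c41f_nt.T1
import Pool.Agent.Lib.MP_f6c41f_nt.T3

/-!
# MP_f6c41f_nt RP, row QTor: translating the integral

Proof.  `torus_red` in `Lib/MP_f6c41f_nt/T1` for `h = ![i, i + a, i + b, i + a + b]`, `m = i`, and for
`h = ![0, a, b, a + b]`, `m = 0`: both are `torus` of the same set `red h m` (the numbers `(h j - m).toNat` are the
same).  Expand `∏ j : Fin 4` by `Fin.prod_univ_four`.
-/

set_option autoImplicit false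

namespace Pool.Agent.Lib.MP_f6c41f_nt.RP

open Finset Pool.Agent.Lib.MP_f6c41f_nt Pool.Agent.Lib.MP_f6c41f_nt.RT
open scoped Classical

theorem qtor_shift (i a b : ℕ) : qt i (i + a) (i + b) (i + a + b) =
    ∫ t in (0:ℝ)..1, ∫ s in (0:ℝ)..1,
      phi t * phi (t + a * s) * phi (t + b * s) * phi (t + (a + b) * s) := by
  have h1 := torus_red (l := 4) ![(i : ℤ), i + a, i + b, i + a + b] (i : ℤ) (by
    intro j
    fin_cases j <;> simp <;> omega)
  have h2 := torus_red (l := 4) ![(0 : ℤ), a, b, a + b] (0 : ℤ) (by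
    intro j
    fin_cases j <;> simp <;> omega)
  have hfun : (fun j : Fin 4 => (![(i : ℤ), i + a, i + b, i + a + b] j - (i : ℤ)).toNat) =
      fun j : Fin 4 => (![(0 : ℤ), a, b, a + b] j - (0 : ℤ)).toNat := by
    funext j
    fin_cases j <;> simp <;> omega
  have hval : ∀ j : Fin 4, (![(i : ℤ), i + a, i + b, i + a + b] j - (i : ℤ)).toNat =
      (![(0 : ℤ), a, b, a + b] j - (0 : ℤ)).toNat := fun j => congrFun hfun j
  have hred : red ![(i : ℤ), i + a, i + b, i + a + b] (i : ℤ) =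
      red ![(0 : ℤ), a, b, a + b] (0 : ℤ) := by
    unfold red
    simp only [hval]
  rw [hred, ← h2] at h1
  have e1 : qt i (i + a) (i + b) (i + a + b) = ∫ t in (0:ℝ)..1, ∫ s in (0:ℝ)..1,
      ∏ j : Fin 4, phi (t + ((![(i : ℤ), i + a, i + b, i + a + b] j : ℤ) : ℝ) * s) := by
    unfold qt
    congr 1
    funext t
    congr 1
    funext s
    rw [Fin.prod_univ_four]
    simp
  rw [e1, h1]
  congr 1
  funext t
  congr 1
  funext s
  rw [Fin.prod_univ_four]
  simp

/-- the two-point integrals vanish: `torus_pair` in `Lib/MP_f6c41f_nt/T3` (`phi x * phi x = 1`, and for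
`c = 2 a` write `torus {0, c}` with `Finset.prod_pair`). -/
theorem qtor_two (a : ℕ) (ha : 1 ≤ a) :
    ∫ t in (0:ℝ)..1, ∫ s in (0:ℝ)..1,
      phi t * phi (t + a * s) * phi (t + a * s) * phi (t + (a + a) * s) = 0 := by
  have h := torus_pair (a + a) (by omega)
  rw [← h]
  unfold torus
  congr 1
  funext t
  congr 1
  funext s
  rw [Finset.prod_pair (by omega)]
  have hsq := phi_sq (t + a * s)
  rw [mul_assoc (phi t) _ _, hsq]
  simp

end Pool.Agent.Lib.MP_f6c41f_nt.RP
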