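import Pool.Agent.Lib.MP_f6c41f_nt.RP.QSum
import Pool.Agent.Lib.MP_f6c41f_nt.RP.QTor

/-!
# MP_f6c41f_nt RP, row SmbP: `q s` is rarely close to an integer

Copy of row Smb (`RT/Smb`, on main) with step `2 q` instead of `q`: if `nrm (q s) ≤ θ` then `nrm (2 q s) ≤ 2 θ`, and
`8 (k (2 θ)) ≤ 1`, `2 k (2 q) ≤ L`; so `f (n + m + j (2 q))`, `0 ≤ j < k`, is constant for `m = 0` or for `m = k (2 q)`
(`smb_mono`, `smb_block` there; private, copy them).  For each fixed `m`:
`Σ_{n ≤ N} (Σ_{j<k} f (n + m + 2 q j))^2 ≤ k N + k^2 (δ N + 2 B)`: for `i < j` the sum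
`Σ_n f (n + m + 2 q i) f (n + m + 2 q j)` is a translate by `m + 2 q i ≤ B` (`qsum`, error `2 B`) of
`Σ_n f n f (n + 2 c)`, `c = q (j - i) ≥ 1`, and `f n f (n + 2 c) = f n f (n + c) f (n + c) f (n + c + c)`: `HypP` with
`a = b = c ≤ B` and `qtor_two`.  So the number of `n ≤ N` with `|Σ_j| = k` is at most `N/k + δ N + 2 B`; two starts.
-/

set_option autoImplicit false

namespace Pool.Agent.Lib.MP_f6c41f_nt.RP

open Finset Pool.Agent.Lib.MP_f6c41f_nt Pool.Agent.Lib.MP_f6c41f_nt.RT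
open scoped Classical

private theorem smbP_mono (k : ℕ) (hk : 1 ≤ k) (u : ℕ → ℤ)
    (hm : ∀ i j, i ≤ j → u i ≤ u j) (hb : ∀ j, j < 2 * k → u j ≤ u 0 + 1) :
    (∀ j, j < k → u j = u 0) ∨ (∀ j, j < k → u (k + j) = u k) := by
  by_cases h : u (k - 1) ≤ u 0
  · left
    intro j hj
    have h1 := hm 0 j (by omega)
    have h2 := hm j (k - 1) (by omega)
    omega
  · right
    intro j hj
    have h1 := hm (k - 1) (k + j) (by omega)
    have h2 := hm (k - 1) k (by omega)
    have h3 := hb (k + j) (by omega)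
    have h4 := hb k (by omega)
    omega

private theorem smbP_block (k : ℕ) (hk : 1 ≤ k) (t d θ : ℝ) (hd : |d| ≤ θ)
    (hkθ : 8 * (k * θ) ≤ 1) :
    (∀ j, j < k → phi (t + (j : ℝ) * d) = phi (t + ((0 : ℕ) : ℝ) * d)) ∨
    (∀ j, j < k → phi (t + ((k + j : ℕ) : ℝ) * d) = phi (t + (k : ℝ) * d)) := by
  set u : ℕ → ℤ := fun j => ⌊2 * (t + (j : ℝ) * d)⌋ with hu
  have hk0 : (0 : ℝ) ≤ k := Nat.cast_nonneg _
  have hθ0 : 0 ≤ θ := le_trans (abs_nonneg _) hd
  have hsmall : ∀ j : ℕ, j < 2 * k → |2 * ((j : ℝ) * d)| ≤ 1 / 2 := by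
    intro j hj
    have h1 : (j : ℝ) ≤ 2 * k := by exact_mod_cast hj.le
    rw [abs_mul, abs_mul, abs_of_pos (by norm_num : (0 : ℝ) < 2), Nat.abs_cast]
    have h2 : (j : ℝ) * |d| ≤ 2 * k * θ := by
      apply mul_le_mul h1 hd (abs_nonneg _) (by positivity)
    linarith
  have hphi : ∀ j : ℕ, phi (t + (j : ℝ) * d) = if Even (u j) then 1 else -1 := by
    intro j
    rw [phi_floor]
  have key : (∀ j, j < k → u j = u 0) ∨ (∀ j, j < k → u (k + j) = u k) := by
    rcases le_total 0 d with h0 | h0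
    · apply smbP_mono k hk u
      · intro i j hij
        apply Int.floor_le_floor
        have : (i : ℝ) ≤ j := by exact_mod_cast hij
        nlinarith
      · intro j hj
        have h1 := (abs_le.1 (hsmall j hj)).2
        have h2 : u j ≤ ⌊2 * (t + ((0 : ℕ) : ℝ) * d) + 1⌋ := by
          apply Int.floor_le_floor
          push_cast
          linarith
        rw [Int.floor_add_one] at h2
        exact h2
    · have := smbP_mono k hk (fun j => -(u j)) ?_ ?_
      · rcases this with h | h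
        · left; intro j hj; have := h j hj; omega
        · right; intro j hj; have := h j hj; omega
      · intro i j hij
        have : u j ≤ u i := by
          apply Int.floor_le_floor
          have : (i : ℝ) ≤ j := by exact_mod_cast hij
          nlinarith
        omega
      · intro j hj
        have h1 := (abs_le.1 (hsmall j hj)).1
        have h2 : ⌊2 * (t + ((0 : ℕ) : ℝ) * d) - 1⌋ ≤ u j := by
          apply Int.floor_le_floor
          push_cast
          linarith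
        rw [Int.floor_sub_one] at h2
        have h3 : ⌊2 * (t + ((0 : ℕ) : ℝ) * d)⌋ = u 0 := rfl
        omega
  rcases key with h | h
  · left
    intro j hj
    rw [hphi j, hphi 0, h j hj]
  · right
    intro j hj
    rw [hphi (k + j), hphi k, h j hj]

private theorem smbP_pair {f : ℕ → ℝ} (hf : Sg f) (B : ℕ) (δ : ℝ) (N : ℕ) (hN : 1 ≤ N)
    (hH : HypP f B δ N) (c a : ℕ) (hc : 1 ≤ c) (hcB : c ≤ B) (haB : a ≤ B) :
    ∑ n ∈ Icc 1 N, f (n + a) * f (n + a + 2 * c) ≤ δ * N + 2 * B := by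
  have hN' : (0 : ℝ) < N := by exact_mod_cast hN
  have h1 := qsum (fun n => f n * f (n + 2 * c)) (fun n => by
    rcases hf n with h | h <;> rcases hf (n + 2 * c) with h' | h' <;> simp [h, h']) N a
  have h2 := (abs_le.1 h1).2
  have h3 := hH c c hc hcB hc hcB
  rw [qtor_two c hc, sub_zero] at h3
  have h4 := (abs_le.1 h3).2
  have h5 : ∑ n ∈ Icc 1 N, f n * f (n + c) * f (n + c) * f (n + c + c) =
      ∑ n ∈ Icc 1 N, f n * f (n + 2 * c) := by
    apply Finset.sum_congr rfl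
    intro n _
    have e : n + 2 * c = n + c + c := by ring
    rw [e]
    rcases hf (n + c) with h | h <;> rw [h] <;> ring
  rw [h5, one_div, inv_mul_le_iff₀ hN'] at h4
  have h6 : (2 : ℝ) * a ≤ 2 * B := by
    have : (a : ℝ) ≤ B := by exact_mod_cast haB
    linarith
  have h7 : (N : ℝ) * δ = δ * N := mul_comm _ _
  linarith

private theorem smbP_sumsq {f : ℕ → ℝ} (hf : Sg f) (B : ℕ) (δ : ℝ) (hδ : 0 ≤ δ) (N : ℕ) (hN : 1 ≤ N)
    (hH : HypP f B δ N) (q k m : ℕ) (hq : 1 ≤ q) (hmB : m + k * (2 * q) ≤ B) :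
    ∑ n ∈ Icc 1 N, (∑ j ∈ range k, f (n + m + j * (2 * q))) ^ 2 ≤
      k * N + (k : ℝ) ^ 2 * (δ * N + 2 * B) := by
  have hN' : (0 : ℝ) < N := by exact_mod_cast hN
  have hB0 : (0 : ℝ) ≤ B := Nat.cast_nonneg _
  have e1 : ∀ n, (∑ j ∈ range k, f (n + m + j * (2 * q))) ^ 2 =
      ∑ i ∈ range k, ∑ j ∈ range k, f (n + m + i * (2 * q)) * f (n + m + j * (2 * q)) := by
    intro n
    rw [sq, Finset.sum_mul_sum]
  have hlt : ∀ i j, i < j → j < k →
      ∑ n ∈ Icc 1 N, f (n + m + i * (2 * q)) * f (n + m + j * (2 * q)) ≤ δ * N + 2 * B := by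
    intro i j hij hj
    obtain ⟨d, rfl⟩ : ∃ d, j = i + d := ⟨j - i, by omega⟩
    have hd : 1 ≤ d := by omega
    have hdq : 1 ≤ q * d := Nat.mul_pos hq hd
    have hdk : d * (2 * q) ≤ k * (2 * q) := Nat.mul_le_mul_right _ (by omega)
    have hik : i * (2 * q) ≤ k * (2 * q) := Nat.mul_le_mul_right _ (by omega)
    have hcB : q * d ≤ B := by
      have : q * d ≤ d * (2 * q) := by nlinarith
      omega
    have h := smbP_pair hf B δ N hN hH (q * d) (m + i * (2 * q)) hdq hcB (by omega)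
    refine le_trans (le_of_eq ?_) h
    apply Finset.sum_congr rfl
    intro n _
    have e2 : n + m + (i + d) * (2 * q) = n + (m + i * (2 * q)) + 2 * (q * d) := by ring
    rw [e2, ← add_assoc]
  simp_rw [e1]
  rw [Finset.sum_comm]
  have h2 : ∀ i ∈ range k, ∑ n ∈ Icc 1 N, ∑ j ∈ range k,
      f (n + m + i * (2 * q)) * f (n + m + j * (2 * q)) ≤ N + k * (δ * N + 2 * B) := by
    intro i hi
    rw [Finset.sum_comm]
    have h3 : ∀ j ∈ range k, ∑ n ∈ Icc 1 N, f (n + m + i * (2 * q)) * f (n + m + j * (2 * q)) ≤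
        (if j = i then (N : ℝ) else 0) + (δ * N + 2 * B) := by
      intro j hj
      rw [mem_range] at hi hj
      by_cases hij : j = i
      · rw [if_pos hij, hij]
        have : ∀ n ∈ Icc 1 N, f (n + m + i * (2 * q)) * f (n + m + i * (2 * q)) = 1 := by
          intro n _
          rcases hf (n + m + i * (2 * q)) with h | h <;> rw [h] <;> norm_num
        rw [Finset.sum_congr rfl this, Finset.sum_const, Nat.card_Icc]
        simp only [Nat.add_sub_cancel, nsmul_eq_mul, mul_one]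
        have : 0 ≤ δ * N := mul_nonneg hδ hN'.le
        linarith
      · rw [if_neg hij, zero_add]
        rcases Nat.lt_or_gt_of_ne hij with h | h
        · refine le_trans (le_of_eq ?_) (hlt j i h hi)
          apply Finset.sum_congr rfl
          intro n _
          rw [mul_comm]
        · exact hlt i j h hj
    refine (Finset.sum_le_sum h3).trans ?_
    rw [Finset.sum_add_distrib, Finset.sum_ite_eq' (range k) i, if_pos hi, Finset.sum_const,
      card_range, nsmul_eq_mul]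
  refine (Finset.sum_le_sum h2).trans ?_
  rw [Finset.sum_const, card_range, nsmul_eq_mul]
  apply le_of_eq
  ring

private theorem smbP_card {f : ℕ → ℝ} (hf : Sg f) (B : ℕ) (δ : ℝ) (hδ : 0 ≤ δ) (N : ℕ) (hN : 1 ≤ N)
    (hH : HypP f B δ N) (q k m : ℕ) (hq : 1 ≤ q) (hk : 1 ≤ k) (hmB : m + k * (2 * q) ≤ B) :
    (((Icc 1 N).filter (fun n => (∑ j ∈ range k, f (n + m + j * (2 * q))) ^ 2 = (k : ℝ) ^ 2)).card : ℝ)
      ≤ N / k + δ * N + 2 * B := by
  have h1 := smbP_sumsq hf B δ hδ N hN hH q k m hq hmB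
  have hk0 : (0 : ℝ) < k := by exact_mod_cast hk
  set S := (Icc 1 N).filter (fun n => (∑ j ∈ range k, f (n + m + j * (2 * q))) ^ 2 = (k : ℝ) ^ 2)
    with hS
  have h2 : (S.card : ℝ) * (k : ℝ) ^ 2 ≤
      ∑ n ∈ Icc 1 N, (∑ j ∈ range k, f (n + m + j * (2 * q))) ^ 2 := by
    calc (S.card : ℝ) * (k : ℝ) ^ 2 = ∑ _n ∈ S, (k : ℝ) ^ 2 := by
          rw [Finset.sum_const, nsmul_eq_mul]
      _ = ∑ n ∈ S, (∑ j ∈ range k, f (n + m + j * (2 * q))) ^ 2 := by
          apply Finset.sum_congr rfl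
          intro n hn
          exact ((mem_filter.1 hn).2).symm
      _ ≤ _ := Finset.sum_le_sum_of_subset_of_nonneg (filter_subset _ _)
          (fun n _ _ => sq_nonneg _)
  have h3 : (S.card : ℝ) * (k : ℝ) ^ 2 ≤ (N / k + δ * N + 2 * B) * (k : ℝ) ^ 2 := by
    refine h2.trans (h1.trans (le_of_eq ?_))
    field_simp
    ring
  exact le_of_mul_le_mul_right h3 (by positivity)

theorem smbP {f : ℕ → ℝ} (hf : Sg f) (B : ℕ) (δ : ℝ) (hδ : 0 ≤ δ) (N : ℕ) (hN : 1 ≤ N)
    (hH : HypP f B δ N) (L q k : ℕ) (θ : ℝ) (hLB : L ≤ B) (hq : 1 ≤ q) (hk : 1 ≤ k)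
    (hkθ : 16 * (k * θ) ≤ 1) (hkL : 4 * k * q ≤ L) :
    (((Icc 1 N).filter (fun n => ∃ s t, Cod f L n s t ∧ nrm (q * s) ≤ θ)).card : ℝ)
      ≤ 2 * (N / k + δ * N + 2 * B) := by
  have hk0 : (0 : ℝ) < k := by exact_mod_cast hk
  have hkq : k * (2 * q) + k * (2 * q) ≤ L := by
    have : 4 * k * q = k * (2 * q) + k * (2 * q) := by ring
    omega
  have c0 := smbP_card hf B δ hδ N hN hH q k 0 hq hk (by omega)
  have c1 := smbP_card hf B δ hδ N hN hH q k (k * (2 * q)) hq hk (by omega)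
  have hsub : (Icc 1 N).filter (fun n => ∃ s t, Cod f L n s t ∧ nrm (q * s) ≤ θ) ⊆
      ((Icc 1 N).filter (fun n => (∑ j ∈ range k, f (n + 0 + j * (2 * q))) ^ 2 = (k : ℝ) ^ 2)) ∪
      ((Icc 1 N).filter (fun n => (∑ j ∈ range k, f (n + k * (2 * q) + j * (2 * q))) ^ 2 =
        (k : ℝ) ^ 2)) := by
    intro n hn
    rw [mem_filter] at hn
    obtain ⟨hnN, s, t, hc, hs⟩ := hn
    have hs2 : nrm (((2 * q : ℕ) : ℝ) * s) ≤ 2 * θ := by
      have h1 := nrm_nat_mul_le 2 (q * s)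
      have e : ((2 * q : ℕ) : ℝ) * s = ((2 : ℕ) : ℝ) * (q * s) := by push_cast; ring
      rw [e]
      refine h1.trans ?_
      push_cast
      linarith
    obtain ⟨z, hz, _⟩ := nrm_rep (((2 * q : ℕ) : ℝ) * s)
    rw [hz] at hs2
    have hval : ∀ j : ℕ, j < 2 * k →
        f (n + j * (2 * q)) = phi (t + (j : ℝ) * (((2 * q : ℕ) : ℝ) * s - z)) := by
      intro j hj
      have hjL : j * (2 * q) ≤ L := by
        have : j * (2 * q) ≤ 2 * k * (2 * q) := Nat.mul_le_mul_right (2 * q) hj.le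
        have e : 2 * k * (2 * q) = k * (2 * q) + k * (2 * q) := by ring
        omega
      rw [(hc (j * (2 * q)) hjL).2]
      have e : t + ((j * (2 * q) : ℕ) : ℝ) * s =
          (t + (j : ℝ) * (((2 * q : ℕ) : ℝ) * s - z)) + (((j : ℤ) * z : ℤ) : ℝ) := by
        push_cast; ring
      rw [e, phi_int]
    have hcst : ∀ (a : ℕ) (v : ℝ), (∀ j, j < k → f (n + a + j * (2 * q)) = v) → (v = 1 ∨ v = -1) →
        (∑ j ∈ range k, f (n + a + j * (2 * q))) ^ 2 = (k : ℝ) ^ 2 := by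
      intro a v h1 h2
      rw [Finset.sum_congr rfl (fun j hj => h1 j (mem_range.1 hj)), Finset.sum_const, card_range,
        nsmul_eq_mul]
      rcases h2 with h | h <;> rw [h] <;> ring
    rw [mem_union, mem_filter, mem_filter]
    rcases smbP_block k hk t (((2 * q : ℕ) : ℝ) * s - z) (2 * θ) hs2 (by linarith) with h | h
    · left
      refine ⟨hnN, hcst 0 (phi (t + ((0 : ℕ) : ℝ) * (((2 * q : ℕ) : ℝ) * s - z)))
        (fun j hj => ?_) (phi_cases' _)⟩
      rw [add_zero, hval j (by omega)]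
      exact h j hj
    · right
      refine ⟨hnN, hcst (k * (2 * q)) (phi (t + (k : ℝ) * (((2 * q : ℕ) : ℝ) * s - z)))
        (fun j hj => ?_) (phi_cases' _)⟩
      have e : n + k * (2 * q) + j * (2 * q) = n + (k + j) * (2 * q) := by ring
      rw [e, hval (k + j) (by omega)]
      exact h j hj
  have h1 := Finset.card_le_card hsub
  have h2 := h1.trans (Finset.card_union_le _ _)
  have h3 : (((Icc 1 N).filter (fun n => ∃ s t, Cod f L n s t ∧ nrm (q * s) ≤ θ)).card : ℝ) ≤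
      (((Icc 1 N).filter (fun n => (∑ j ∈ range k, f (n + 0 + j * (2 * q))) ^ 2 =
        (k : ℝ) ^ 2)).card : ℝ)
      + (((Icc 1 N).filter (fun n => (∑ j ∈ range k, f (n + k * (2 * q) + j * (2 * q))) ^ 2 =
        (k : ℝ) ^ 2)).card : ℝ) := by
    exact_mod_cast h2
  linarith

end Pool.Agent.Lib.MP_f6c41f_nt.RP
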