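import Pool.Agent.Lib.MP_f6c41f_nt.RP.VioPC
import Pool.Agent.Lib.MP_f6c41f_nt.RP.CodP
import Pool.Agent.Lib.MP_f6c41f_nt.RP.SmbP

/-!
# MP_f6c41f_nt RP, row GddP: most numbers are good

Proof.  Let `n ≤ N` have no `(s, t)` with `Cod` and `ND`.  Either `n ≤ L L` (at most `L L` such `n`), or `n = m + L L`
with `1 ≤ m ≤ N` and the window at `m` has a violation `VioP (fun i => f (m + i)) a b b'`, `1 ≤ a`, `b + 2 a ≤ B`, `b' + 2 a ≤ B`
(else `codP`): at most `(B + 1)^3` triples, `vioPC` for each; or `Cod f L n s t` for some `(s, t)` without `ND`: some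
`1 ≤ q ≤ Q` with `nrm (q s) ≤ θ`: `smbP` for each `q` (`4 k q ≤ 4 k Q ≤ L`).  (Compare `RT/Gdd`.)
-/

set_option autoImplicit false

namespace Pool.Agent.Lib.MP_f6c41f_nt.RP

open Finset Pool.Agent.Lib.MP_f6c41f_nt Pool.Agent.Lib.MP_f6c41f_nt.RT
open scoped Classical

theorem gddP {f : ℕ → ℝ} (hf : Sg f) (L B : ℕ) (hB : B = 2 * (L * L) + L) (δ : ℝ) (hδ : 0 ≤ δ)
    (N : ℕ) (hN : 1 ≤ N) (hH : HypP f B δ N) (Q k : ℕ) (θ : ℝ) (hk : 1 ≤ k)
    (hkθ : 16 * (k * θ) ≤ 1) (hkL : 4 * k * Q ≤ L) :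
    (((Icc 1 N).filter (fun n => ¬ ∃ s t, Cod f L n s t ∧ ND Q θ s)).card : ℝ)
      ≤ ((B : ℝ) + 1) ^ 3 * (δ * N + 2 * B) + L * L + Q * (2 * (N / k + δ * N + 2 * B)) := by
  obtain ⟨T, hT⟩ : ∃ T, T = ((range (B + 1)) ×ˢ (range (B + 1)) ×ˢ (range (B + 1))).filter
      (fun p => 1 ≤ p.1 ∧ p.2.1 + 2 * p.1 ≤ B ∧ p.2.2 + 2 * p.1 ≤ B) := ⟨_, rfl⟩
  have hTc : (T.card : ℝ) ≤ ((B : ℝ) + 1) ^ 3 := by
    have h1 : T.card ≤ (B + 1) * ((B + 1) * (B + 1)) := by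
      rw [hT]
      refine (card_filter_le _ _).trans ?_
      rw [card_product, card_product, card_range]
    have h2 : (T.card : ℝ) ≤ ((B + 1) * ((B + 1) * (B + 1)) : ℕ) := by exact_mod_cast h1
    refine h2.trans (le_of_eq ?_)
    push_cast
    ring
  set VS : Finset ℕ := T.biUnion fun p =>
        (Icc 1 N).filter (fun n => VioP (fun i => f (n + i)) p.1 p.2.1 p.2.2) with hVS
  set SS : Finset ℕ := (Icc 1 Q).biUnion fun q =>
        (Icc 1 N).filter (fun n => ∃ s t, Cod f L n s t ∧ nrm (q * s) ≤ θ) with hSS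
  have hsub : (Icc 1 N).filter (fun n => ¬ ∃ s t, Cod f L n s t ∧ ND Q θ s) ⊆
      (VS.image (fun m => m + L * L) ∪ Icc 1 (L * L)) ∪ SS := by
    intro n hn
    rw [mem_filter] at hn
    obtain ⟨hn1, hn2⟩ := hn
    rw [mem_Icc] at hn1
    rw [mem_union, mem_union]
    by_cases hnL : n ≤ L * L
    · exact Or.inl (Or.inr (mem_Icc.2 ⟨hn1.1, hnL⟩))
    obtain ⟨m, hm⟩ : ∃ m, n = m + L * L := ⟨n - L * L, by omega⟩
    by_cases hv : ∃ a b b', 1 ≤ a ∧ b + 2 * a ≤ B ∧ b' + 2 * a ≤ B ∧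
        VioP (fun i => f (m + i)) a b b'
    · left; left
      obtain ⟨a, b, b', h1, h2, h3, h4⟩ := hv
      rw [mem_image]
      refine ⟨m, ?_, hm.symm⟩
      rw [hVS, mem_biUnion]
      refine ⟨(a, b, b'), ?_, mem_filter.2 ⟨mem_Icc.2 ⟨by omega, by omega⟩, h4⟩⟩
      simp only [hT, mem_filter, mem_product, mem_range]
      omega
    · right
      push Not at hv
      obtain ⟨s, t, hst⟩ := codP hf L m (fun a b b' h1 h2 h3 =>
        hv a b b' h1 (by rw [hB]; exact h2) (by rw [hB]; exact h3))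
      rw [← hm] at hst
      have hnd : ¬ ND Q θ s := fun h => hn2 ⟨s, t, hst, h⟩
      unfold ND at hnd
      push Not at hnd
      obtain ⟨q, hq1, hq2, hq3⟩ := hnd
      rw [hSS]
      exact mem_biUnion.2 ⟨q, mem_Icc.2 ⟨hq1, hq2⟩, mem_filter.2 ⟨mem_Icc.2 hn1, s, t, hst, hq3⟩⟩
  have hN0 : (0 : ℝ) ≤ N := Nat.cast_nonneg _
  have hB0 : (0 : ℝ) ≤ B := Nat.cast_nonneg _
  have hA : (VS.card : ℝ) ≤ ((B : ℝ) + 1) ^ 3 * (δ * N + 2 * B) := by
    have h1 : (VS.card : ℝ) ≤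
        ∑ p ∈ T, (((Icc 1 N).filter
          (fun n => VioP (fun i => f (n + i)) p.1 p.2.1 p.2.2)).card : ℝ) := by
      rw [hVS]
      exact_mod_cast card_biUnion_le
    have h2 : ∑ p ∈ T, (((Icc 1 N).filter
          (fun n => VioP (fun i => f (n + i)) p.1 p.2.1 p.2.2)).card : ℝ) ≤
        ∑ _p ∈ T, (δ * (N : ℝ) + 2 * B) := by
      refine Finset.sum_le_sum fun p hp => ?_
      rw [hT, mem_filter] at hp
      obtain ⟨-, h3, h4, h5⟩ := hp
      exact vioPC hf B δ hδ N hN hH p.1 p.2.1 p.2.2 h4 h5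
    rw [Finset.sum_const, nsmul_eq_mul] at h2
    refine h1.trans (h2.trans (mul_le_mul_of_nonneg_right hTc ?_))
    positivity
  have hLB : L ≤ B := by rw [hB]; omega
  have hS : (SS.card : ℝ) ≤ Q * (2 * (N / k + δ * N + 2 * B)) := by
    have h1 : (SS.card : ℝ) ≤
        ∑ q ∈ Icc 1 Q, (((Icc 1 N).filter
          (fun n => ∃ s t, Cod f L n s t ∧ nrm (q * s) ≤ θ)).card : ℝ) := by
      rw [hSS]
      exact_mod_cast card_biUnion_le
    have h2 : ∑ q ∈ Icc 1 Q, (((Icc 1 N).filter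
          (fun n => ∃ s t, Cod f L n s t ∧ nrm (q * s) ≤ θ)).card : ℝ) ≤
        ∑ _q ∈ Icc 1 Q, 2 * ((N : ℝ) / k + δ * N + 2 * B) := by
      refine Finset.sum_le_sum fun q hq => ?_
      obtain ⟨h3, h4⟩ := mem_Icc.1 hq
      exact smbP hf B δ hδ N hN hH L q k θ hLB h3 hk hkθ
        ((Nat.mul_le_mul_left (4 * k) h4).trans hkL)
    rw [Finset.sum_const, nsmul_eq_mul, Nat.card_Icc, Nat.add_sub_cancel] at h2
    exact h1.trans h2
  have hc1 : (((VS.image (fun m => m + L * L) ∪ Icc 1 (L * L)) ∪ SS).card : ℝ) ≤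
      (VS.card : ℝ) + L * L + SS.card := by
    have e1 : ((VS.image (fun m => m + L * L) ∪ Icc 1 (L * L)) ∪ SS).card ≤
        VS.card + L * L + SS.card := by
      refine (card_union_le _ _).trans (Nat.add_le_add_right ?_ _)
      refine (card_union_le _ _).trans (Nat.add_le_add card_image_le ?_)
      rw [Nat.card_Icc]; omega
    exact_mod_cast e1
  have hc2 : (((Icc 1 N).filter (fun n => ¬ ∃ s t, Cod f L n s t ∧ ND Q θ s)).card : ℝ) ≤
      (((VS.image (fun m => m + L * L) ∪ Icc 1 (L * L)) ∪ SS).card : ℝ) := by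
    exact_mod_cast card_le_card hsub
  linarith

end Pool.Agent.Lib.MP_f6c41f_nt.RP
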