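import Pool.Agent.Lib.MP_f6c41f_nt.RP.GddP

/-!
# MP_f6c41f_nt RP, row GodP: numerics

Proof.  `gddP` with `L = r^30`, `Q = r^10`, `θ = 1/r^20`, `k = r^20 / 16` (so `16 k ≤ r^20`, `r^20 ≤ 32 k`, `4 k Q ≤ r^30`),
`B = 2 r^60 + r^30`, `δ = 1/r^200`.  `B + 1 ≤ 4 r^60`; `(B + 1)^3 (δ N + 2 B) ≤ 64 r^180 (N/r^200 + 8 r^60) = 64 N/r^20 +
512 r^240 ≤ 64 N/r^20 + 512 N/r^60` (`r^300 ≤ 4^r ≤ N`); `L L = r^60 ≤ N/r^240`;
`Q (2 (N/k + δ N + 2 B)) ≤ 2 r^10 (32 N/r^20 + N/r^200 + 8 r^60) ≤ 66 N/r^10 + 16 N/r^200`.  The sum is at most `N/r^7` for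
`r ≥ 20000`.  (`B` may be kept as a natural number `2 * (r^30 * r^30) + r^30`.)  Compare `good_count` in `RT/Main`.
-/

set_option autoImplicit false

namespace Pool.Agent.Lib.MP_f6c41f_nt.RP

open Finset Pool.Agent.Lib.MP_f6c41f_nt Pool.Agent.Lib.MP_f6c41f_nt.RT
open scoped Classical

theorem godP (r : ℕ) (hr : 20000 ≤ r) (hE : (r : ℝ) ^ 300 ≤ (4 : ℝ) ^ r) (f : ℕ → ℝ) (hf : Sg f)
    (N : ℕ) (hN : 4 ^ r ≤ N)
    (hH : HypP f (2 * (r ^ 30 * r ^ 30) + r ^ 30) (1 / (r : ℝ) ^ 200) N) :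
    (((Icc 1 N).filter (fun n => ¬ ∃ s t, Cod f (r ^ 30) n s t ∧
        ND (r ^ 10) (1 / (r : ℝ) ^ 20) s)).card : ℝ) ≤ (1 / (r : ℝ) ^ 7) * N := by
  have hR : (20000 : ℝ) ≤ r := by exact_mod_cast hr
  have hR0 : (0 : ℝ) < r := by linarith
  have hR1 : (1 : ℝ) ≤ r := by linarith
  have hN1 : 1 ≤ N := le_trans (Nat.one_le_pow _ _ (by norm_num)) hN
  have hNN : (r : ℝ) ^ 300 ≤ N := hE.trans (by exact_mod_cast hN)
  have h20 : 32 ≤ r ^ 20 := by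
    calc 32 ≤ r := by omega
      _ = r ^ 1 := (pow_one _).symm
      _ ≤ r ^ 20 := Nat.pow_le_pow_right (by omega) (by norm_num)
  have hk1 : 1 ≤ r ^ 20 / 16 := by omega
  have hk16 : 16 * (r ^ 20 / 16) ≤ r ^ 20 := Nat.mul_div_le _ _
  have hk32 : r ^ 20 ≤ 32 * (r ^ 20 / 16) := by omega
  set k := r ^ 20 / 16 with hk
  have hk16' : (16 : ℝ) * k ≤ (r : ℝ) ^ 20 := by exact_mod_cast hk16
  have hk32' : (r : ℝ) ^ 20 ≤ 32 * k := by exact_mod_cast hk32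
  have hk0 : (0 : ℝ) < k := by exact_mod_cast hk1
  have h1 := gddP hf (r ^ 30) (2 * (r ^ 30 * r ^ 30) + r ^ 30) rfl (1 / (r : ℝ) ^ 200)
    (by positivity) N hN1 hH (r ^ 10) k (1 / (r : ℝ) ^ 20) hk1 (by
      rw [show 16 * ((k : ℝ) * (1 / (r : ℝ) ^ 20)) = (16 * k) / (r : ℝ) ^ 20 by ring,
        div_le_one (by positivity)]
      exact hk16') (by
      calc 4 * k * r ^ 10 ≤ r ^ 20 * r ^ 10 := Nat.mul_le_mul_right _ (by omega)
        _ = r ^ 30 := by ring)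
  refine h1.trans ?_
  push_cast
  generalize (r : ℝ) = R at *
  generalize (N : ℝ) = M at *
  have hM0 : 0 < M := lt_of_lt_of_le (by positivity) hNN
  obtain ⟨x, hx⟩ : ∃ x, x = M / R ^ 10 := ⟨_, rfl⟩
  have hMx : M = x * R ^ 10 := by rw [hx]; field_simp
  have hx0 : 0 < x := by rw [hx]; positivity
  have hx290 : R ^ 290 ≤ x := by
    rw [hx, le_div_iff₀ (by positivity)]
    calc R ^ 290 * R ^ 10 = R ^ 300 := by ring
      _ ≤ M := hNN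
  have p240 : R ^ 240 ≤ x := (pow_le_pow_right₀ hR1 (by norm_num)).trans hx290
  have p70 : R ^ 70 ≤ x := (pow_le_pow_right₀ hR1 (by norm_num)).trans hx290
  have p60 : R ^ 60 ≤ x := (pow_le_pow_right₀ hR1 (by norm_num)).trans hx290
  have q10 : 1 ≤ R ^ 10 := one_le_pow₀ hR1
  have q180 : 1 ≤ R ^ 180 := one_le_pow₀ hR1
  have q30 : R ^ 30 ≤ R ^ 60 := pow_le_pow_right₀ hR1 (by norm_num)
  have q60 : 1 ≤ R ^ 60 := one_le_pow₀ hR1
  have e60 : R ^ 30 * R ^ 30 = R ^ 60 := by ring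
  rw [e60]
  have b0 : 0 ≤ 2 * R ^ 60 + R ^ 30 := by positivity
  have b1 : 2 * R ^ 60 + R ^ 30 + 1 ≤ 4 * R ^ 60 := by linarith
  have b2 : 2 * (2 * R ^ 60 + R ^ 30) ≤ 8 * R ^ 60 := by linarith
  have b3 : (2 * R ^ 60 + R ^ 30 + 1) ^ 3 ≤ 64 * R ^ 180 := by
    calc (2 * R ^ 60 + R ^ 30 + 1) ^ 3 ≤ (4 * R ^ 60) ^ 3 :=
          pow_le_pow_left₀ (by positivity) b1 3
      _ = 64 * R ^ 180 := by ring
  have m0 : 0 ≤ 1 / R ^ 200 * M := by positivity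
  have t1 : (2 * R ^ 60 + R ^ 30 + 1) ^ 3 * (1 / R ^ 200 * M + 2 * (2 * R ^ 60 + R ^ 30)) ≤
      576 * x := by
    calc (2 * R ^ 60 + R ^ 30 + 1) ^ 3 * (1 / R ^ 200 * M + 2 * (2 * R ^ 60 + R ^ 30))
        ≤ 64 * R ^ 180 * (1 / R ^ 200 * M + 8 * R ^ 60) := by gcongr
      _ = 64 * (x / R ^ 10) + 512 * R ^ 240 := by
          rw [hMx]; field_simp; ring
      _ ≤ 64 * x + 512 * x := by
          have : x / R ^ 10 ≤ x := div_le_self hx0.le q10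
          linarith
      _ = 576 * x := by ring
  have n1 : M / k ≤ 32 * x / R ^ 10 := by
    rw [div_le_div_iff₀ hk0 (by positivity), hMx]
    calc x * R ^ 10 * R ^ 10 = x * R ^ 20 := by ring
      _ ≤ x * (32 * k) := by gcongr
      _ = 32 * x * k := by ring
  have t3 : R ^ 10 * (2 * (M / k + 1 / R ^ 200 * M + 2 * (2 * R ^ 60 + R ^ 30))) ≤ 82 * x := by
    calc R ^ 10 * (2 * (M / k + 1 / R ^ 200 * M + 2 * (2 * R ^ 60 + R ^ 30)))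
        ≤ R ^ 10 * (2 * (32 * x / R ^ 10 + 1 / R ^ 200 * M + 8 * R ^ 60)) := by gcongr
      _ = 64 * x + 2 * (x / R ^ 180) + 16 * R ^ 70 := by
          rw [hMx]; field_simp; ring
      _ ≤ 64 * x + 2 * x + 16 * x := by
          have : x / R ^ 180 ≤ x := div_le_self hx0.le q180
          linarith
      _ = 82 * x := by ring
  have r3 : 659 ≤ R ^ 3 := by
    calc (659 : ℝ) ≤ 20000 ^ 3 := by norm_num
      _ ≤ R ^ 3 := pow_le_pow_left₀ (by norm_num) hR 3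
  have fin : 1 / R ^ 7 * M = R ^ 3 * x := by
    rw [hMx]; field_simp
  rw [fin]
  calc _ ≤ 576 * x + R ^ 60 + 82 * x := by linarith
    _ ≤ 659 * x := by linarith
    _ ≤ R ^ 3 * x := by gcongr

end Pool.Agent.Lib.MP_f6c41f_nt.RP
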