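import Pool.Agent.Lib.MP_f6c41f_nt.RT.Fin
import Pool.Agent.Lib.MP_f6c41f_nt.RP.GodP
import Pool.Agent.Lib.MP_f6c41f_nt.RT.Bdy
import Pool.Agent.Lib.MP_f6c41f_nt.RT.CntG
import Pool.Agent.Lib.MP_f6c41f_nt.RT.Sel

/-!
# MP_f6c41f_nt RP: assembly
-/

set_option autoImplicit false

namespace Pool.Agent.Lib.MP_f6c41f_nt.RP

open Finset Pool.Agent.Lib.MP_f6c41f_nt Pool.Agent.Lib.MP_f6c41f_nt.RT
open scoped Classical

/-- the good numbers -/
private def Gs (f : ℕ → ℝ) (r : ℕ) : Set ℕ :=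
  {x | 0 < x ∧ ∃ s t, Cod f (r ^ 30) x s t ∧ ND (r ^ 10) (1 / (r : ℝ) ^ 20) s}

private theorem num_par (r : ℕ) (hr : 20000 ≤ r) :
    Par (r ^ 30) (r ^ 10) (r ^ 20) (1 / (r : ℝ) ^ 20) (1 / (r : ℝ) ^ 9) (5 / (r : ℝ) ^ 30) := by
  have hR : (20000 : ℝ) ≤ r := by exact_mod_cast hr
  have hR0 : (0 : ℝ) < r := by linarith
  have hR1 : (1 : ℝ) ≤ r := by linarith
  have hp : ∀ k : ℕ, 1 ≤ k → (20000 : ℝ) ≤ (r : ℝ) ^ k := by
    intro k hk
    calc (20000 : ℝ) ≤ r := hR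
      _ = (r : ℝ) ^ 1 := (pow_one _).symm
      _ ≤ (r : ℝ) ^ k := pow_le_pow_right₀ hR1 hk
  constructor
  · have := hp 30 (by norm_num)
    have h2 : (100 : ℝ) ≤ ((r ^ 30 : ℕ) : ℝ) := by push_cast; linarith
    exact_mod_cast h2
  · push_cast; field_simp
  · exact Nat.one_le_pow _ _ (by omega)
  · push_cast
    rw [mul_add, one_div, inv_mul_cancel₀ (by positivity), mul_one]
    have : 0 < ((r : ℝ) ^ 20)⁻¹ := by positivity
    linarith
  · push_cast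
    have : 1 / (r : ℝ) ^ 9 * (r : ℝ) ^ 10 = r := by field_simp
    rw [this]; linarith
  · push_cast
    have : 4 * ((r : ℝ) ^ 20 * (5 / (r : ℝ) ^ 30)) = 20 / (r : ℝ) ^ 10 := by field_simp; norm_num
    rw [this, div_le_div_iff₀ (by positivity) (by positivity)]
    have e : (r : ℝ) ^ 10 = r * (r : ℝ) ^ 9 := by ring
    rw [e, one_mul]
    have : (0 : ℝ) < (r : ℝ) ^ 9 := by positivity
    nlinarith
  · have e : 30 * (5 / (r : ℝ) ^ 30) = 150 / (r : ℝ) ^ 30 := by ring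
    rw [e, div_le_div_iff₀ (by positivity) (by positivity), one_mul]
    have e2 : (r : ℝ) ^ 30 = (r : ℝ) ^ 10 * (r : ℝ) ^ 20 := by ring
    rw [e2]
    have := hp 10 (by norm_num)
    have h3 : (0 : ℝ) < (r : ℝ) ^ 20 := by positivity
    nlinarith
  · have e : 100 * (5 / (r : ℝ) ^ 30) = 500 / (r : ℝ) ^ 30 := by ring
    rw [e, div_le_div_iff₀ (by positivity) (by positivity), one_mul]
    have e2 : (r : ℝ) ^ 30 = (r : ℝ) ^ 21 * (r : ℝ) ^ 9 := by ring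
    rw [e2]
    have := hp 21 (by norm_num)
    have h3 : (0 : ℝ) < (r : ℝ) ^ 9 := by positivity
    nlinarith
  · rw [mul_one_div, div_le_one (by positivity)]
    have := hp 9 (by norm_num)
    linarith

private theorem exD (f : ℕ → ℝ) (hf : Sg f) (hm : Mul f) (r : ℕ) :
    ∃ s t : ℕ → ℝ, Dat f (r ^ 30) (r ^ 10) (1 / (r : ℝ) ^ 20) (Gs f r) s t := by
  have h : ∀ x : ℕ, ∃ p : ℝ × ℝ, x ∈ Gs f r →
      Cod f (r ^ 30) x p.1 p.2 ∧ ND (r ^ 10) (1 / (r : ℝ) ^ 20) p.1 := by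
    intro x
    by_cases hx : x ∈ Gs f r
    · obtain ⟨_, s, t, h⟩ := hx
      exact ⟨(s, t), fun _ => h⟩
    · exact ⟨(0, 0), fun h => absurd h hx⟩
  choose p hp using h
  exact ⟨fun x => (p x).1, fun x => (p x).2, hf, hm, fun x hx => hx.1, fun x hx => (hp x hx).1,
    fun x hx => (hp x hx).2⟩

/-- what is used about `f`: most numbers are good, few have `2 s` close to an integer -/
private def HG (f : ℕ → ℝ) (r : ℕ) : Prop :=
  (∀ N : ℕ, 4 ^ r ≤ N → N ≤ 4 * 32 ^ r →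
    (((Icc 1 N).filter (fun n => n ∉ Gs f r)).card : ℝ) ≤ (1 / (r : ℝ) ^ 7) * N) ∧
  (((Icc 1 (2 * 32 ^ r)).filter (fun n => ∃ s t, Cod f (r ^ 30) n s t ∧
        nrm (((2 : ℕ) : ℝ) * s) ≤ 8 / (r : ℝ))).card : ℝ) ≤ (1 / 32) * ((2 : ℝ) ^ r) ^ 5

private theorem log4 (r : ℕ) : Nat.log 2 (4 ^ r) = 2 * r := by
  rw [show (4 : ℕ) ^ r = 2 ^ (2 * r) by rw [pow_mul]; norm_num]
  exact Nat.log_pow (by norm_num) _

private theorem log2 (r : ℕ) : Nat.log 2 (2 ^ r) = r := Nat.log_pow (by norm_num) _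

private theorem p4 (r : ℕ) : (4 : ℝ) ^ r = ((2 : ℝ) ^ r) ^ 2 := by
  rw [← pow_mul, mul_comm, pow_mul]; norm_num

private theorem p32 (r : ℕ) : (32 : ℝ) ^ r = ((2 : ℝ) ^ r) ^ 5 := by
  rw [← pow_mul, mul_comm, pow_mul]; norm_num

private theorem num_A (r : ℕ) (hr : 20000 ≤ r) (hE : (r : ℝ) ^ 30 ≤ (2 : ℝ) ^ r) (k : ℕ) (hk : k ≤ 29) :
    20000 * (r : ℝ) ^ k ≤ (2 : ℝ) ^ r := by
  have hR : (20000 : ℝ) ≤ r := by exact_mod_cast hr
  have hR1 : (1 : ℝ) ≤ r := by linarith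
  calc 20000 * (r : ℝ) ^ k ≤ r * (r : ℝ) ^ k := by
        apply mul_le_mul_of_nonneg_right hR (by positivity)
    _ = (r : ℝ) ^ (k + 1) := by ring
    _ ≤ (r : ℝ) ^ 30 := pow_le_pow_right₀ hR1 (by omega)
    _ ≤ _ := hE

private theorem cntE1 (r : ℕ) (hr : 20000 ≤ r) (hE : (r : ℝ) ^ 30 ≤ (2 : ℝ) ^ r) (f : ℕ → ℝ)
    (hf : Sg f)
    (hH : HG f r)
    (s t : ℕ → ℝ) (D : Dat f (r ^ 30) (r ^ 10) (1 / (r : ℝ) ^ 20) (Gs f r) s t) :
    (((Icc 1 (2 * 32 ^ r)).filter (fun n => ¬ SG (Gs f r) (4 ^ r) n ∨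
      (n ∈ Gs f r ∧ nrm (2 * s n) ≤ 8 / (r : ℝ)))).card : ℝ) ≤ ((32 ^ r : ℕ) : ℝ) / 8 := by
  have hR : (20000 : ℝ) ≤ r := by exact_mod_cast hr
  have hR0 : (0 : ℝ) < r := by linarith
  have hR1 : (1 : ℝ) ≤ r := by linarith
  have h432 : 4 ^ r ≤ 32 ^ r := Nat.pow_le_pow_left (by norm_num) r
  have hg : ∀ N : ℕ, 4 ^ r ≤ N → N ≤ 2 * 32 ^ r →
      (((Icc 1 N).filter (fun n => n ∉ Gs f r)).card : ℝ) ≤ (1 / (r : ℝ) ^ 7) * N := by
    intro N h1 h2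
    exact hH.1 N h1 (by omega)
  have h1 := cntG (Gs f r) (4 ^ r) (2 * 32 ^ r) (4 ^ r) (1 / (r : ℝ) ^ 7) (by positivity)
    (Nat.one_le_pow _ _ (by norm_num)) (by
      rw [← mul_pow]
      calc (4 * 4) ^ r ≤ 32 ^ r := Nat.pow_le_pow_left (by norm_num) r
        _ ≤ _ := by omega) hg
  rw [log4] at h1
  have h2 := hH.2
  have h3 : ((Icc 1 (2 * 32 ^ r)).filter (fun n => ¬ SG (Gs f r) (4 ^ r) n ∨
      (n ∈ Gs f r ∧ nrm (2 * s n) ≤ 8 / (r : ℝ)))) ⊆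
      ((Icc 1 (2 * 32 ^ r)).filter (fun n => ¬ SG (Gs f r) (4 ^ r) n)) ∪
      ((Icc 1 (2 * 32 ^ r)).filter (fun n => ∃ s t, Cod f (r ^ 30) n s t ∧
        nrm (((2 : ℕ) : ℝ) * s) ≤ 8 / (r : ℝ))) := by
    intro n hn
    rw [mem_filter] at hn
    rw [mem_union, mem_filter, mem_filter]
    rcases hn.2 with h | ⟨h, h'⟩
    · exact Or.inl ⟨hn.1, h⟩
    · exact Or.inr ⟨hn.1, s n, t n, D.cod n h, by push_cast; exact h'⟩
  have h4 := (Nat.cast_le (α := ℝ)).2 ((card_le_card h3).trans (card_union_le _ _))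
  rw [Nat.cast_add] at h4
  refine h4.trans ((add_le_add h1 h2).trans ?_)
  push_cast
  rw [p4, p32]
  have hA7 := num_A r hr hE 2 (by norm_num)
  set A : ℝ := (2 : ℝ) ^ r with hA
  have hA1 : (1 : ℝ) ≤ A := one_le_pow₀ (by norm_num)
  have b1 : (2 * (r : ℝ) + 1) ^ 2 ≤ 9 * (r : ℝ) ^ 2 := by nlinarith
  have b5 : (2 * (r : ℝ) + 1) ^ 2 * (1 / (r : ℝ) ^ 7 * (2 * A ^ 5) + A ^ 2) ≤ (1 / 16) * A ^ 5 := by
    calc (2 * (r : ℝ) + 1) ^ 2 * (1 / (r : ℝ) ^ 7 * (2 * A ^ 5) + A ^ 2)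
        ≤ 9 * (r : ℝ) ^ 2 * (1 / (r : ℝ) ^ 7 * (2 * A ^ 5) + A ^ 2) := by
          apply mul_le_mul_of_nonneg_right b1 (by positivity)
      _ = 18 / (r : ℝ) ^ 5 * A ^ 5 + 9 * (r : ℝ) ^ 2 * A ^ 2 := by field_simp; ring
      _ ≤ (1 / 32) * A ^ 5 + (1 / 32) * A ^ 5 := by
          apply add_le_add
          · apply mul_le_mul_of_nonneg_right _ (by positivity)
            rw [div_le_div_iff₀ (by positivity) (by norm_num)]
            have : (r : ℝ) ≤ (r : ℝ) ^ 5 := by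
              calc (r : ℝ) = (r : ℝ) ^ 1 := (pow_one _).symm
                _ ≤ _ := pow_le_pow_right₀ hR1 (by norm_num)
            linarith
          · have c1 : 9 * (r : ℝ) ^ 2 ≤ 1 / 32 * A := by nlinarith [sq_nonneg (r : ℝ)]
            have c2 : A ≤ A ^ 3 := by
              calc A = A ^ 1 := (pow_one _).symm
                _ ≤ _ := pow_le_pow_right₀ hA1 (by norm_num)
            calc 9 * (r : ℝ) ^ 2 * A ^ 2 ≤ (1 / 32 * A) * A ^ 2 := by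
                  apply mul_le_mul_of_nonneg_right c1 (by positivity)
              _ = 1 / 32 * A ^ 3 := by ring
              _ ≤ 1 / 32 * A ^ 5 := by
                  apply mul_le_mul_of_nonneg_left _ (by norm_num)
                  exact pow_le_pow_right₀ hA1 (by norm_num)
      _ = (1 / 16) * A ^ 5 := by ring
  have : (0 : ℝ) < A ^ 5 := by positivity
  linarith

private theorem cntE2 (r : ℕ) (hr : 20000 ≤ r) (hE : (r : ℝ) ^ 30 ≤ (2 : ℝ) ^ r) (f : ℕ → ℝ)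
    (hf : Sg f)
    (hH : HG f r)
    (s t : ℕ → ℝ) (D : Dat f (r ^ 30) (r ^ 10) (1 / (r : ℝ) ^ 20) (Gs f r) s t) :
    (((Icc 1 (4 * 32 ^ r)).filter (fun n => ¬ SG (Gs f r) (4 ^ r) n ∨
      (n ∈ Gs f r ∧ nrm (2 * t n) ≤ 2 * (1 / (r : ℝ) ^ 6)))).card : ℝ) ≤
      40 / (r : ℝ) ^ 5 * ((2 : ℝ) ^ r) ^ 5 := by
  have hR : (20000 : ℝ) ≤ r := by exact_mod_cast hr
  have hR0 : (0 : ℝ) < r := by linarith
  have hR1 : (1 : ℝ) ≤ r := by linarith
  have h432 : 4 ^ r ≤ 32 ^ r := Nat.pow_le_pow_left (by norm_num) r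
  have hg : ∀ N : ℕ, 4 ^ r ≤ N → N ≤ 4 * 32 ^ r →
      (((Icc 1 N).filter (fun n => n ∉ Gs f r)).card : ℝ) ≤ (1 / (r : ℝ) ^ 7) * N := by
    intro N h1 h2
    exact hH.1 N h1 h2
  have h1 := cntG (Gs f r) (4 ^ r) (4 * 32 ^ r) (4 ^ r) (1 / (r : ℝ) ^ 7) (by positivity)
    (Nat.one_le_pow _ _ (by norm_num)) (by
      rw [← mul_pow]
      calc (4 * 4) ^ r ≤ 32 ^ r := Nat.pow_le_pow_left (by norm_num) r
        _ ≤ _ := by omega) hg
  rw [log4] at h1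
  have h2 := bdy (num_par r hr) D (1 / (r : ℝ) ^ 6) (1 / (r : ℝ) ^ 7) (by
      apply one_div_le_one_div_of_le (by positivity)
      exact pow_le_pow_right₀ hR1 (by norm_num)) (4 * 32 ^ r) (hg _ (by omega) le_rfl)
  have h3 : ((Icc 1 (4 * 32 ^ r)).filter (fun n => ¬ SG (Gs f r) (4 ^ r) n ∨
      (n ∈ Gs f r ∧ nrm (2 * t n) ≤ 2 * (1 / (r : ℝ) ^ 6)))) ⊆
      ((Icc 1 (4 * 32 ^ r)).filter (fun n => ¬ SG (Gs f r) (4 ^ r) n)) ∪
      ((Icc 1 (4 * 32 ^ r)).filter (fun n => n ∈ Gs f r ∧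
        nrm (2 * t n) ≤ 2 * (1 / (r : ℝ) ^ 6))) := by
    intro n hn
    rw [mem_filter] at hn
    rw [mem_union, mem_filter, mem_filter]
    rcases hn.2 with h | h
    · exact Or.inl ⟨hn.1, h⟩
    · exact Or.inr ⟨hn.1, h⟩
  have h4 := (Nat.cast_le (α := ℝ)).2 ((card_le_card h3).trans (card_union_le _ _))
  rw [Nat.cast_add] at h4
  refine h4.trans ((add_le_add h1 h2).trans ?_)
  push_cast
  rw [p4, p32]
  have hA7 := num_A r hr hE 7 (by norm_num)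
  have hA25 := num_A r hr hE 25 (by norm_num)
  set A : ℝ := (2 : ℝ) ^ r with hA
  have hA1 : (1 : ℝ) ≤ A := one_le_pow₀ (by norm_num)
  have hA0 : (0 : ℝ) < A := by positivity
  have b1 : (2 * (r : ℝ) + 1) ^ 2 ≤ 9 * (r : ℝ) ^ 2 := by nlinarith
  have b5 : (2 * (r : ℝ) + 1) ^ 2 * (1 / (r : ℝ) ^ 7 * (4 * A ^ 5) + A ^ 2) ≤
      37 / (r : ℝ) ^ 5 * A ^ 5 := by
    calc (2 * (r : ℝ) + 1) ^ 2 * (1 / (r : ℝ) ^ 7 * (4 * A ^ 5) + A ^ 2)
        ≤ 9 * (r : ℝ) ^ 2 * (1 / (r : ℝ) ^ 7 * (4 * A ^ 5) + A ^ 2) := by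
          apply mul_le_mul_of_nonneg_right b1 (by positivity)
      _ = 36 / (r : ℝ) ^ 5 * A ^ 5 + 9 * (r : ℝ) ^ 2 * A ^ 2 := by field_simp; ring
      _ ≤ 36 / (r : ℝ) ^ 5 * A ^ 5 + 1 / (r : ℝ) ^ 5 * A ^ 5 := by
          apply add_le_add le_rfl
          rw [div_mul_eq_mul_div, one_mul, le_div_iff₀ (by positivity)]
          have c1 : 9 * (r : ℝ) ^ 7 ≤ A := by
            have : (0 : ℝ) ≤ (r : ℝ) ^ 7 := by positivity
            linarith
          have c2 : A ^ 3 ≤ A ^ 5 := pow_le_pow_right₀ hA1 (by norm_num)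
          calc 9 * (r : ℝ) ^ 2 * A ^ 2 * (r : ℝ) ^ 5 = (9 * (r : ℝ) ^ 7) * A ^ 2 := by ring
            _ ≤ A * A ^ 2 := mul_le_mul_of_nonneg_right c1 (by positivity)
            _ = A ^ 3 := by ring
            _ ≤ A ^ 5 := c2
      _ = 37 / (r : ℝ) ^ 5 * A ^ 5 := by ring
  have b6 : (25 * (1 / (r : ℝ) ^ 6) + 1 / (r : ℝ) ^ 7) * (4 * A ^ 5) + (r : ℝ) ^ 20 ≤
      3 / (r : ℝ) ^ 5 * A ^ 5 := by
    have c1 : (1 : ℝ) / (r : ℝ) ^ 7 ≤ 1 / (r : ℝ) ^ 6 := by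
      apply one_div_le_one_div_of_le (by positivity)
      exact pow_le_pow_right₀ hR1 (by norm_num)
    have c2 : 104 * (1 / (r : ℝ) ^ 6) ≤ 1 / (r : ℝ) ^ 5 := by
      rw [mul_one_div, div_le_div_iff₀ (by positivity) (by positivity)]
      have : (0 : ℝ) < (r : ℝ) ^ 5 := by positivity
      nlinarith
    have c3 : (r : ℝ) ^ 20 ≤ 1 / (r : ℝ) ^ 5 * A ^ 5 := by
      rw [div_mul_eq_mul_div, one_mul, le_div_iff₀ (by positivity), ← pow_add]
      have d1 : (r : ℝ) ^ 25 ≤ A := by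
        have : (0 : ℝ) ≤ (r : ℝ) ^ 25 := by positivity
        linarith
      calc (r : ℝ) ^ (20 + 5) ≤ A := d1
        _ = A ^ 1 := (pow_one _).symm
        _ ≤ A ^ 5 := pow_le_pow_right₀ hA1 (by norm_num)
    calc (25 * (1 / (r : ℝ) ^ 6) + 1 / (r : ℝ) ^ 7) * (4 * A ^ 5) + (r : ℝ) ^ 20
        ≤ (25 * (1 / (r : ℝ) ^ 6) + 1 / (r : ℝ) ^ 6) * (4 * A ^ 5) + 1 / (r : ℝ) ^ 5 * A ^ 5 := by
          apply add_le_add _ c3
          apply mul_le_mul_of_nonneg_right _ (by positivity)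
          linarith
      _ = (104 * (1 / (r : ℝ) ^ 6)) * A ^ 5 + 1 / (r : ℝ) ^ 5 * A ^ 5 := by ring
      _ ≤ (1 / (r : ℝ) ^ 5) * A ^ 5 + 1 / (r : ℝ) ^ 5 * A ^ 5 := by
          apply add_le_add _ le_rfl
          apply mul_le_mul_of_nonneg_right c2 (by positivity)
      _ = 2 / (r : ℝ) ^ 5 * A ^ 5 := by ring
      _ ≤ 3 / (r : ℝ) ^ 5 * A ^ 5 := by
          apply mul_le_mul_of_nonneg_right _ (by positivity)
          apply div_le_div_of_nonneg_right (by norm_num) (by positivity)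
  calc _ ≤ 37 / (r : ℝ) ^ 5 * A ^ 5 + 3 / (r : ℝ) ^ 5 * A ^ 5 := add_le_add b5 b6
    _ = 40 / (r : ℝ) ^ 5 * A ^ 5 := by ring

private theorem cntE3 (r : ℕ) (hr : 20000 ≤ r) (hE : (r : ℝ) ^ 30 ≤ (2 : ℝ) ^ r) (f : ℕ → ℝ)
    (hf : Sg f)
    (hH : HG f r) :
    (((Icc 1 (2 * 32 ^ r / 4 ^ r + 1)).filter (fun n => ¬ SG (Gs f r) (2 ^ r) n)).card : ℝ) ≤
      12 / (r : ℝ) ^ 5 * ((2 : ℝ) ^ r) ^ 3 + 4 * (r : ℝ) ^ 2 * (2 : ℝ) ^ r := by
  have hR : (20000 : ℝ) ≤ r := by exact_mod_cast hr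
  have hR0 : (0 : ℝ) < r := by linarith
  have hR1 : (1 : ℝ) ≤ r := by linarith
  have e8 : 2 * 32 ^ r / 4 ^ r = 2 * 8 ^ r := by
    rw [show (32 : ℕ) ^ r = 8 ^ r * 4 ^ r by rw [← mul_pow]; norm_num, ← mul_assoc]
    exact Nat.mul_div_cancel _ (by positivity)
  rw [e8]
  have h832 : 8 ^ r ≤ 32 ^ r := Nat.pow_le_pow_left (by norm_num) r
  have h1' : 1 ≤ 32 ^ r := Nat.one_le_pow _ _ (by norm_num)
  have h1 := cntG (Gs f r) (4 ^ r) (2 * 8 ^ r + 1) (2 ^ r) (1 / (r : ℝ) ^ 7) (by positivity)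
    (Nat.one_le_pow _ _ (by norm_num)) (by
      rw [← mul_pow]; norm_num; omega) (by
      intro N h1 h2
      exact hH.1 N h1 (by omega))
  rw [log2] at h1
  refine h1.trans ?_
  push_cast
  have p8 : (8 : ℝ) ^ r = ((2 : ℝ) ^ r) ^ 3 := by rw [← pow_mul, mul_comm, pow_mul]; norm_num
  rw [p8]
  set A : ℝ := (2 : ℝ) ^ r with hA
  have hA1 : (1 : ℝ) ≤ A := one_le_pow₀ (by norm_num)
  have hA3 : (1 : ℝ) ≤ A ^ 3 := one_le_pow₀ hA1
  have b1 : ((r : ℝ) + 1) ^ 2 ≤ 4 * (r : ℝ) ^ 2 := by nlinarith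
  calc ((r : ℝ) + 1) ^ 2 * (1 / (r : ℝ) ^ 7 * (2 * A ^ 3 + 1) + A)
      ≤ 4 * (r : ℝ) ^ 2 * (1 / (r : ℝ) ^ 7 * (3 * A ^ 3) + A) := by
        apply mul_le_mul b1 _ (by positivity) (by positivity)
        apply add_le_add _ le_rfl
        apply mul_le_mul_of_nonneg_left _ (by positivity)
        linarith
    _ = 12 / (r : ℝ) ^ 5 * A ^ 3 + 4 * (r : ℝ) ^ 2 * A := by field_simp; ring

private theorem core_aux (r : ℕ) (hr : 20000 ≤ r) (hE : (r : ℝ) ^ 30 ≤ (2 : ℝ) ^ r) (f : ℕ → ℝ)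
    (hf : Sg f) (hm : Mul f)
    (hH : HG f r) : False := by
  obtain ⟨s, t, D⟩ := exD f hf hm r
  have hR : (20000 : ℝ) ≤ r := by exact_mod_cast hr
  have hR0 : (0 : ℝ) < r := by linarith
  have hR1 : (1 : ℝ) ≤ r := by linarith
  have P := num_par r hr
  have e1 := cntE1 r hr hE f hf hH s t D
  have e2 := cntE2 r hr hE f hf hH s t D
  have e3 := cntE3 r hr hE f hf hH
  have hA7 := num_A r hr hE 7 (by norm_num)
  have h24 : (2 : ℕ) ≤ 4 ^ r := by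
    calc 2 ≤ 4 ^ 1 := by norm_num
      _ ≤ 4 ^ r := Nat.pow_le_pow_right (by norm_num) (by omega)
  have h2r : (r : ℕ) ≤ 2 ^ r := Nat.lt_two_pow_self.le
  have e8 : 2 * 32 ^ r / 4 ^ r = 2 * 8 ^ r := by
    rw [show (32 : ℕ) ^ r = 8 ^ r * 4 ^ r by rw [← mul_pow]; norm_num, ← mul_assoc]
    exact Nat.mul_div_cancel _ (by positivity)
  have q8 : (8 : ℕ) ^ r = 4 ^ r * 2 ^ r := by rw [← mul_pow]; norm_num
  have q32 : (32 : ℕ) ^ r = 8 ^ r * 4 ^ r := by rw [← mul_pow]; norm_num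
  have r8 : 4 * (r + 1) ≤ 8 ^ r := by
    have h1 : r + 1 ≤ 2 ^ r := Nat.lt_two_pow_self
    have h2 : 4 ≤ 4 ^ r := by
      calc 4 = 4 ^ 1 := (pow_one _).symm
        _ ≤ 4 ^ r := Nat.pow_le_pow_right (by norm_num) (by omega)
    rw [q8]
    exact Nat.mul_le_mul h2 h1
  obtain ⟨E1, hd1⟩ : ∃ E : ℕ → Prop, ∀ n, E n ↔ (¬ SG (Gs f r) (4 ^ r) n ∨
      (n ∈ Gs f r ∧ nrm (2 * s n) ≤ 8 / (r : ℝ))) := ⟨_, fun n => Iff.rfl⟩
  obtain ⟨E2, hd2⟩ : ∃ E : ℕ → Prop, ∀ n, E n ↔ (¬ SG (Gs f r) (4 ^ r) n ∨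
      (n ∈ Gs f r ∧ nrm (2 * t n) ≤ 2 * (1 / (r : ℝ) ^ 6))) := ⟨_, fun n => Iff.rfl⟩
  obtain ⟨E3, hd3⟩ : ∃ E : ℕ → Prop, ∀ n, E n ↔ ¬ SG (Gs f r) (2 ^ r) n := ⟨_, fun n => Iff.rfl⟩
  rw [← filter_congr (fun n _ => hd1 n)] at e1
  rw [← filter_congr (fun n _ => hd2 n)] at e2
  rw [← filter_congr (fun n _ => hd3 n)] at e3
  -- selection
  obtain ⟨n, hn, d, hd, hE1, hE2, hE3⟩ := sel (32 ^ r) (4 ^ r) r (Nat.one_le_pow _ _ (by norm_num)) h24
    (by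
      rw [q32]
      nlinarith)
    E1 E2 E3 e1
    (by
      obtain ⟨c, hc⟩ : ∃ c : ℝ, c = (((Icc 1 (4 * 32 ^ r)).filter E2).card : ℝ) := ⟨_, rfl⟩
      rw [← hc] at e2 ⊢
      push_cast
      have hlog : 1 + Real.log (3 * (4 : ℝ) ^ r) ≤ 3 * r := by
        have h1 : Real.log (3 * (4 : ℝ) ^ r) ≤ Real.log ((2 : ℝ) ^ (2 * r + 2)) := by
          apply Real.log_le_log (by positivity)
          rw [pow_add, pow_mul]; norm_num
          have : (0 : ℝ) < 4 ^ r := by positivity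
          linarith
        rw [Real.log_pow] at h1
        have h2 := Real.log_two_lt_d9
        push_cast at h1
        have h3 : (2 * (r : ℝ) + 2) * Real.log 2 ≤ (2 * (r : ℝ) + 2) * 0.7 := by
          apply mul_le_mul_of_nonneg_left (by linarith) (by positivity)
        linarith
      rw [p4] at hlog ⊢
      rw [p32]
      set A : ℝ := (2 : ℝ) ^ r with hA
      have hA0 : (0 : ℝ) < A := by positivity
      have hsq : Real.sqrt (c * (9 * (4 * A ^ 5) * (1 + Real.log (3 * A ^ 2)))) ≤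
          66 / (r : ℝ) ^ 2 * A ^ 5 := by
        apply Real.sqrt_le_iff.2
        refine ⟨by positivity, ?_⟩
        calc c * (9 * (4 * A ^ 5) * (1 + Real.log (3 * A ^ 2)))
            ≤ (40 / (r : ℝ) ^ 5 * A ^ 5) * (9 * (4 * A ^ 5) * (3 * r)) := by
              apply mul_le_mul e2 _ _ (by positivity)
              · apply mul_le_mul_of_nonneg_left hlog (by positivity)
              · apply mul_nonneg (by positivity)
                have : 0 ≤ Real.log (3 * A ^ 2) := by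
                  apply Real.log_nonneg
                  have : (1 : ℝ) ≤ A ^ 2 := one_le_pow₀ (one_le_pow₀ (by norm_num))
                  linarith
                linarith
          _ = 4320 / (r : ℝ) ^ 4 * A ^ 10 := by field_simp; norm_num
          _ ≤ 4356 / (r : ℝ) ^ 4 * A ^ 10 := by
              apply mul_le_mul_of_nonneg_right _ (by positivity)
              apply div_le_div_of_nonneg_right (by norm_num) (by positivity)
          _ = (66 / (r : ℝ) ^ 2 * A ^ 5) ^ 2 := by field_simp; norm_num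
      calc 3 * ((r : ℝ) + 1) * (3 * A ^ 2 *
            Real.sqrt (c * (9 * (4 * A ^ 5) * (1 + Real.log (3 * A ^ 2)))))
          ≤ 3 * ((r : ℝ) + 1) * (3 * A ^ 2 * (66 / (r : ℝ) ^ 2 * A ^ 5)) := by
            apply mul_le_mul_of_nonneg_left _ (by positivity)
            apply mul_le_mul_of_nonneg_left hsq (by positivity)
        _ = (594 * ((r : ℝ) + 1) / (r : ℝ) ^ 2) * (A ^ 5 * A ^ 2) := by field_simp; ring
        _ ≤ (1 / 4) * (A ^ 5 * A ^ 2) := by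
            apply mul_le_mul_of_nonneg_right _ (by positivity)
            rw [div_le_div_iff₀ (by positivity) (by norm_num)]
            nlinarith
        _ = A ^ 5 * A ^ 2 / 4 := by ring)
    (by
      obtain ⟨c, hc⟩ : ∃ c : ℝ, c = (((Icc 1 (2 * 32 ^ r / 4 ^ r + 1)).filter E3).card : ℝ) := ⟨_, rfl⟩
      rw [← hc] at e3 ⊢
      push_cast
      rw [p4, p32]
      set A : ℝ := (2 : ℝ) ^ r with hA
      have hA0 : (0 : ℝ) < A := by positivity
      have hA1 : (1 : ℝ) ≤ A := one_le_pow₀ (by norm_num)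
      calc 3 * (3 * A ^ 2 * A ^ 2 * c)
          ≤ 3 * (3 * A ^ 2 * A ^ 2 * (12 / (r : ℝ) ^ 5 * A ^ 3 + 4 * (r : ℝ) ^ 2 * A)) := by
            apply mul_le_mul_of_nonneg_left _ (by norm_num)
            apply mul_le_mul_of_nonneg_left e3 (by positivity)
        _ = 108 / (r : ℝ) ^ 5 * A ^ 7 + 36 * (r : ℝ) ^ 2 * A ^ 5 := by field_simp; ring
        _ ≤ 1 / 8 * A ^ 7 + 1 / 8 * A ^ 7 := by
            apply add_le_add
            · apply mul_le_mul_of_nonneg_right _ (by positivity)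
              rw [div_le_div_iff₀ (by positivity) (by norm_num)]
              have : (r : ℝ) ≤ (r : ℝ) ^ 5 := by
                calc (r : ℝ) = (r : ℝ) ^ 1 := (pow_one _).symm
                  _ ≤ _ := pow_le_pow_right₀ hR1 (by norm_num)
              linarith
            · have c0 : (r : ℝ) ^ 2 ≤ (r : ℝ) ^ 7 := pow_le_pow_right₀ hR1 (by norm_num)
              have c1 : 36 * (r : ℝ) ^ 2 ≤ 1 / 8 * A := by linarith
              have c2 : A * A ^ 5 ≤ A ^ 7 := by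
                calc A * A ^ 5 = A ^ 6 := by ring
                  _ ≤ A ^ 7 := pow_le_pow_right₀ hA1 (by norm_num)
              calc 36 * (r : ℝ) ^ 2 * A ^ 5 ≤ (1 / 8 * A) * A ^ 5 := by
                    apply mul_le_mul_of_nonneg_right c1 (by positivity)
                _ = 1 / 8 * (A * A ^ 5) := by ring
                _ ≤ 1 / 8 * A ^ 7 := by
                    apply mul_le_mul_of_nonneg_left c2 (by norm_num)
        _ = A ^ 5 * A ^ 2 / 4 := by ring)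
  rw [mem_Ico] at hn hd
  have h4pos : 0 < 4 ^ r := by positivity
  have hd0 : 0 < d := by omega
  rw [hd1] at hE1
  push Not at hE1
  have hE2' : ∀ i < 3, ∀ h ≤ r, SG (Gs f r) (4 ^ r) ((d + i) * (n / (d + i) + 1 + h)) ∧
      2 * (1 / (r : ℝ) ^ 6) < nrm (2 * t ((d + i) * (n / (d + i) + 1 + h))) := by
    intro i hi h hh
    have := hE2 i hi h hh
    rw [hd2] at this
    push Not at this
    refine ⟨this.1, this.2 ?_⟩
    have h1 := this.1 0 0 (by simp; exact Nat.one_le_pow _ _ (by norm_num))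
    simpa using h1
  have hE3' : ∀ i < 3, SG (Gs f r) (2 ^ r) (n / (d + i) + 1) := by
    intro i hi
    have := hE3 i hi
    rw [hd3] at this
    push Not at this
    exact this
  refine fin P D (1 / (r : ℝ) ^ 6) ?_ (4 ^ r) (2 ^ r) (20 * r) r n d
    (Nat.one_le_pow _ _ (by norm_num)) (Nat.one_le_pow _ _ (by norm_num)) ?_ ?_ (by omega) hd0 ?_ ?_ ?_
    hE1.1 (fun i hi h hh => (hE2' i hi h hh).1) (fun i hi h hh => (hE2' i hi h hh).2) hE3'
    (hE1.2 (by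
      have h1 := hE1.1 0 0 (by simp; exact Nat.one_le_pow _ _ (by norm_num))
      simpa using h1))
  · rw [div_le_one (by positivity)]; exact one_le_pow₀ hR1
  · calc 2 * (20 * r) ≤ r * r := by nlinarith
      _ = r ^ 2 := by ring
      _ ≤ r ^ 30 := Nat.pow_le_pow_right (by omega) (by norm_num)
  · push_cast
    rw [show 20 * (r : ℝ) * (5 / (r : ℝ) ^ 30) = 100 / (r : ℝ) ^ 29 by field_simp; norm_num]
    rw [div_le_div_iff₀ (by positivity) (by positivity), one_mul]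
    calc 100 * (r : ℝ) ^ 9 ≤ r * (r : ℝ) ^ 9 := by
          apply mul_le_mul_of_nonneg_right (by linarith) (by positivity)
      _ = (r : ℝ) ^ 10 := by ring
      _ ≤ (r : ℝ) ^ 29 := pow_le_pow_right₀ hR1 (by norm_num)
  · rw [log4]
    push_cast
    rw [show (r : ℝ) * ((6 + 5 * (2 * (r : ℝ))) * (1 / (r : ℝ) ^ 9)) = (6 + 10 * r) / (r : ℝ) ^ 8 by
      field_simp; ring]
    rw [div_le_div_iff₀ (by positivity) (by positivity), one_mul]
    calc (6 + 10 * (r : ℝ)) * (r : ℝ) ^ 6 ≤ (r ^ 2) * (r : ℝ) ^ 6 := by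
          apply mul_le_mul_of_nonneg_right _ (by positivity)
          nlinarith
      _ = (r : ℝ) ^ 8 := by ring
  · have h1 : d + 2 ≤ 3 * 4 ^ r := by omega
    calc 4 * ((r + 1) * (d + 2)) + 4 ^ r ≤ 4 * ((r + 1) * (3 * 4 ^ r)) + 4 ^ r := by
          apply Nat.add_le_add_right
          apply Nat.mul_le_mul_left
          exact Nat.mul_le_mul_left _ h1
      _ = (12 * r + 13) * 4 ^ r := by ring
      _ ≤ 20 * r * 4 ^ r := Nat.mul_le_mul_right _ (by omega)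
  · -- n / d - n / (d + 2) ≤ 4 * 2 ^ r + 1
    have h1 : n / d ≤ n / (d + 2) + (4 * 2 ^ r + 1) := by
      set q := n / (d + 2) with hq
      have a1 : n < (q + 1) * (d + 2) := by
        have := Nat.lt_succ_iff.2 (le_refl q)
        rw [mul_comm]
        exact Nat.lt_mul_div_succ n (by omega)
      have a2 : q ≤ 2 * 8 ^ r := by
        rw [← e8]
        calc q ≤ n / 4 ^ r := Nat.div_le_div_left (by omega) h4pos
          _ ≤ 2 * 32 ^ r / 4 ^ r := Nat.div_le_div_right hn.2.le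
      rw [Nat.div_le_iff_le_mul_add_pred hd0]
      have a3 : 2 * (q + 1) ≤ (4 * 2 ^ r + 1) * d := by
        calc 2 * (q + 1) ≤ 4 * 8 ^ r + 4 ^ r := by omega
          _ = (4 * 2 ^ r + 1) * 4 ^ r := by rw [q8]; ring
          _ ≤ (4 * 2 ^ r + 1) * d := Nat.mul_le_mul_left _ hd.1
      have a4 : (q + 1) * (d + 2) = (q + 1) * d + 2 * (q + 1) := by ring
      have a5 : d * (q + (4 * 2 ^ r + 1)) = q * d + (4 * 2 ^ r + 1) * d := by ring
      have a6 : (q + 1) * d = q * d + d := by ring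
      omega
    have h2 : 4 * (n / d - n / (d + 2)) ≤ 4 * (4 * 2 ^ r + 1) := by omega
    have h3 : 1 ≤ 2 ^ r := Nat.one_le_pow _ _ (by norm_num)
    calc 4 * (n / d - n / (d + 2)) + 2 ^ r ≤ 4 * (4 * 2 ^ r + 1) + 2 ^ r := by omega
      _ ≤ 21 * 2 ^ r := by omega
      _ ≤ 20 * r * 2 ^ r := Nat.mul_le_mul_right _ (by omega)

private theorem hg_of (r : ℕ) (hr : 100000 ≤ r) (hE : (r : ℝ) ^ 30 ≤ (2 : ℝ) ^ r)
    (hE' : (r : ℝ) ^ 300 ≤ (4 : ℝ) ^ r) (f : ℕ → ℝ) (hf : Sg f)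
    (hH : ∀ N : ℕ, 4 ^ r ≤ N → N ≤ 4 * 32 ^ r →
      HypP f (2 * (r ^ 30 * r ^ 30) + r ^ 30) (1 / (r : ℝ) ^ 200) N) : HG f r := by
  have hR : (100000 : ℝ) ≤ r := by exact_mod_cast hr
  have hR0 : (0 : ℝ) < r := by linarith
  have hR1 : (1 : ℝ) ≤ r := by linarith
  have h432 : 4 ^ r ≤ 32 ^ r := Nat.pow_le_pow_left (by norm_num) r
  constructor
  · intro N h1 h2
    refine le_trans ?_ (godP r (by omega) hE' f hf N h1 (hH N h1 h2))
    have : ((Icc 1 N).filter (fun n => n ∉ Gs f r)) ⊆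
        ((Icc 1 N).filter (fun n => ¬ ∃ s t, Cod f (r ^ 30) n s t ∧
          ND (r ^ 10) (1 / (r : ℝ) ^ 20) s)) := by
      intro n hn
      rw [mem_filter] at hn ⊢
      refine ⟨hn.1, fun h => hn.2 ⟨?_, h⟩⟩
      have := (mem_Icc.1 hn.1).1
      omega
    exact_mod_cast card_le_card this
  · have hk1 : 1 ≤ r / 128 := by omega
    have hk128 : 128 * (r / 128) ≤ r := Nat.mul_div_le _ _
    have hk256 : r ≤ 256 * (r / 128) := by omega
    set k := r / 128 with hk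
    have hk128' : (128 : ℝ) * k ≤ r := by exact_mod_cast hk128
    have hk256' : (r : ℝ) ≤ 256 * k := by exact_mod_cast hk256
    have hk0 : (0 : ℝ) < k := by exact_mod_cast hk1
    have hr30 : r ≤ r ^ 30 := by
      calc r = r ^ 1 := (pow_one _).symm
        _ ≤ r ^ 30 := Nat.pow_le_pow_right (by omega) (by norm_num)
    have h2 := smbP hf (2 * (r ^ 30 * r ^ 30) + r ^ 30) (1 / (r : ℝ) ^ 200) (by positivity)
      (2 * 32 ^ r) (by have := Nat.one_le_pow r 32 (by norm_num); omega)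
      (hH (2 * 32 ^ r) (by omega) (by omega)) (r ^ 30) 2 k (8 / (r : ℝ)) (by omega) (by norm_num) hk1
      (by
        rw [show 16 * ((k : ℝ) * (8 / (r : ℝ))) = (128 * k) / r by ring, div_le_one hR0]
        exact hk128')
      (by omega)
    refine h2.trans ?_
    push_cast
    rw [p32]
    rw [p4] at hE'
    set A : ℝ := (2 : ℝ) ^ r with hA
    have hA1 : (1 : ℝ) ≤ A := one_le_pow₀ (by norm_num)
    have hA5 : 0 < A ^ 5 := by positivity
    have hAA : A ^ 2 ≤ A ^ 5 := pow_le_pow_right₀ hA1 (by norm_num)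
    have c1 : 2 * A ^ 5 / (k : ℝ) ≤ 512 / r * A ^ 5 := by
      rw [div_le_iff₀ hk0]
      have : (512 : ℝ) / r * A ^ 5 * k = 2 * A ^ 5 * ((256 * k) / r) := by ring
      rw [this]
      have h1 : 1 ≤ (256 * (k : ℝ)) / r := by rw [le_div_iff₀ hR0]; linarith
      have h3 : 0 < 2 * A ^ 5 := by positivity
      nlinarith
    have c2 : 1 / (r : ℝ) ^ 200 * (2 * A ^ 5) ≤ 2 / r * A ^ 5 := by
      have h1 : (1 : ℝ) / (r : ℝ) ^ 200 ≤ 1 / r := by
        apply one_div_le_one_div_of_le hR0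
        calc (r : ℝ) = (r : ℝ) ^ 1 := (pow_one _).symm
          _ ≤ _ := pow_le_pow_right₀ hR1 (by norm_num)
      calc 1 / (r : ℝ) ^ 200 * (2 * A ^ 5) ≤ 1 / r * (2 * A ^ 5) :=
            mul_le_mul_of_nonneg_right h1 (by positivity)
        _ = 2 / r * A ^ 5 := by ring
    have c3 : 2 * (2 * ((r : ℝ) ^ 30 * (r : ℝ) ^ 30) + (r : ℝ) ^ 30) ≤ 6 / r * A ^ 5 := by
      have h1 : (r : ℝ) ^ 30 ≤ (r : ℝ) ^ 60 := pow_le_pow_right₀ hR1 (by norm_num)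
      have h3 : (r : ℝ) ^ 61 ≤ (r : ℝ) ^ 300 := pow_le_pow_right₀ hR1 (by norm_num)
      have h4 : (r : ℝ) ^ 61 = r * (r : ℝ) ^ 60 := by ring
      have h5 : (r : ℝ) ^ 60 ≤ A ^ 5 / r := by
        rw [le_div_iff₀ hR0]; nlinarith
      calc 2 * (2 * ((r : ℝ) ^ 30 * (r : ℝ) ^ 30) + (r : ℝ) ^ 30)
          = 4 * (r : ℝ) ^ 60 + 2 * (r : ℝ) ^ 30 := by ring
        _ ≤ 6 * (A ^ 5 / r) := by linarith
        _ = 6 / r * A ^ 5 := by ring
    have c4 : (520 : ℝ) / r ≤ 1 / 64 := by rw [div_le_div_iff₀ hR0 (by norm_num)]; linarith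
    have c5 : (520 : ℝ) / r * A ^ 5 ≤ 1 / 64 * A ^ 5 := mul_le_mul_of_nonneg_right c4 hA5.le
    have c6 : (520 : ℝ) / r * A ^ 5 = 512 / r * A ^ 5 + 2 / r * A ^ 5 + 6 / r * A ^ 5 := by ring
    linarith

/-- the theorem with parallelograms, in the parameter `r` -/
theorem coreP : ∃ r0 : ℕ, ∀ r : ℕ, r0 ≤ r → ∀ f : ℕ → ℝ, Sg f → Mul f →
    ¬ ∀ N : ℕ, 4 ^ r ≤ N → N ≤ 4 * 32 ^ r →
      HypP f (2 * (r ^ 30 * r ^ 30) + r ^ 30) (1 / (r : ℝ) ^ 200) N := by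
  have h1 := tendsto_pow_const_div_const_pow_of_one_lt 30 (r := (2 : ℝ)) (by norm_num)
  have h2 := (h1.eventually (gt_mem_nhds (show (0 : ℝ) < 1 by norm_num)))
  rw [Filter.eventually_atTop] at h2
  obtain ⟨r1, hr1⟩ := h2
  have h1' := tendsto_pow_const_div_const_pow_of_one_lt 300 (r := (4 : ℝ)) (by norm_num)
  have h2' := (h1'.eventually (gt_mem_nhds (show (0 : ℝ) < 1 by norm_num)))
  rw [Filter.eventually_atTop] at h2'
  obtain ⟨r2, hr2⟩ := h2'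
  refine ⟨max 100000 (max r1 r2), fun r hr f hf hm hH => ?_⟩
  have hr' : 100000 ≤ r := (le_max_left _ _).trans hr
  have h3 := hr1 r (((le_max_left _ _).trans (le_max_right _ _)).trans hr)
  have h4 := hr2 r (((le_max_right _ _).trans (le_max_right _ _)).trans hr)
  rw [div_lt_one (by positivity)] at h3 h4
  exact core_aux r (by omega) h3.le f hf hm (hg_of r hr' h3.le h4.le f hf hH)

end Pool.Agent.Lib.MP_f6c41f_nt.RP
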