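import Pool.Agent.Lib.MP_f6c41f_nt.RP.Ap3
import Pool.Agent.Lib.MP_f6c41f_nt.RT.Pat
import Pool.Agent.Lib.MP_f6c41f_nt.T1

/-!
# MP_f6c41f_nt RP, row ModP: the pairing identity in the model

Proof.  For signs `x_i` put `P_b = 1 + x_b x_{b+2a}`, `Q_b = x_{b+a} (x_b + x_{b+2a})`.  `P_b ∈ {0, 2}`, `Q_b = 2` for a
constant progression, `-2` for an alternating one, else `0 = P_b`.  So `P_b P_b' - Q_b Q_b' = 8` if one of the two
is constant and the other alternating, and `0` otherwise.  In the model (`x_i = phi (t + i s)`) `ap3` (for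
`(b, b')` and `(b', b)`) gives `P_b P_b' - Q_b Q_b' = 0` for all `s, t`.  Expand (`x_b^2 = 1`) and integrate over
`[0, 1]^2`: the integrands are bounded and measurable (`measurable_phi`, `C7_int`; for the linearity of the double
integral see `T1`, `C7`, `Pat` in `RT`; or use `MeasureTheory.integral` on the product, or write each `qt` as a
`torus` of a finset by `torus_red` and proceed as `pat_model` in `RT/Pat`).
-/

set_option autoImplicit false

namespace Pool.Agent.Lib.MP_f6c41f_nt.RP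

open Finset Pool.Agent.Lib.MP_f6c41f_nt Pool.Agent.Lib.MP_f6c41f_nt.RT
open scoped Classical

private theorem modP_pt (x0 x1 x2 y0 y1 y2 : ℝ) (hx0 : x0 = 1 ∨ x0 = -1) (hx1 : x1 = 1 ∨ x1 = -1)
    (hx2 : x2 = 1 ∨ x2 = -1) (hy0 : y0 = 1 ∨ y0 = -1) (hy1 : y1 = 1 ∨ y1 = -1)
    (hy2 : y2 = 1 ∨ y2 = -1) (hA : ¬ (x0 = x1 ∧ x1 = x2 ∧ y0 = -y1 ∧ y1 = -y2))
    (hB : ¬ (y0 = y1 ∧ y1 = y2 ∧ x0 = -x1 ∧ x1 = -x2)) :
    1 + x0 * x1 * x1 * x2 + y0 * y1 * y1 * y2 + x0 * x2 * y0 * y2
      - (x0 * x1 * y0 * y1 + x1 * x2 * y1 * y2 + x0 * x1 * y1 * y2 + y0 * y1 * x1 * x2) = 0 := by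
  rcases hx0 with rfl | rfl <;> rcases hx1 with rfl | rfl <;> rcases hx2 with rfl | rfl <;>
    rcases hy0 with rfl | rfl <;> rcases hy1 with rfl | rfl <;> rcases hy2 with rfl | rfl <;>
    first
      | (norm_num; done)
      | (norm_num at hA; done)
      | (norm_num at hB; done)

/-- the uniform measure on the unit square -/
private noncomputable def mu2 : MeasureTheory.Measure (ℝ × ℝ) :=
  ((MeasureTheory.volume : MeasureTheory.Measure ℝ).restrict (Set.Ioc 0 1)).prod
    ((MeasureTheory.volume : MeasureTheory.Measure ℝ).restrict (Set.Ioc 0 1))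

private noncomputable def G4 (i j k l : ℕ) (p : ℝ × ℝ) : ℝ :=
  phi (p.1 + i * p.2) * phi (p.1 + j * p.2) * phi (p.1 + k * p.2) * phi (p.1 + l * p.2)

private theorem mu2_one : mu2 Set.univ = 1 := by
  unfold mu2
  rw [← Set.univ_prod_univ, MeasureTheory.Measure.prod_prod]
  simp

private instance mu2_fin : MeasureTheory.IsFiniteMeasure mu2 :=
  ⟨by rw [mu2_one]; exact ENNReal.one_lt_top⟩

private theorem G4_meas (i j k l : ℕ) : Measurable (G4 i j k l) := by
  have h : ∀ i : ℕ, Measurable (fun p : ℝ × ℝ => phi (p.1 + (i : ℝ) * p.2)) := fun i =>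
    measurable_phi.comp (measurable_fst.add (measurable_const.mul measurable_snd))
  exact (((h i).mul (h j)).mul (h k)).mul (h l)

private theorem G4_int (i j k l : ℕ) : MeasureTheory.Integrable (G4 i j k l) mu2 := by
  refine MeasureTheory.Integrable.of_bound (G4_meas i j k l).aestronglyMeasurable 1
    (Filter.Eventually.of_forall fun p => ?_)
  rw [Real.norm_eq_abs]
  unfold G4
  simp only [abs_mul, phi_abs]
  norm_num

private theorem qt_G4 (i j k l : ℕ) : qt i j k l = ∫ p, G4 i j k l p ∂mu2 := by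
  have h := G4_int i j k l
  unfold mu2 at h ⊢
  rw [MeasureTheory.integral_prod _ h]
  unfold qt
  rw [intervalIntegral.integral_of_le zero_le_one]
  refine MeasureTheory.integral_congr_ae (Filter.Eventually.of_forall fun t => ?_)
  show (∫ s in (0:ℝ)..1, _) = _
  rw [intervalIntegral.integral_of_le zero_le_one]
  rfl

private theorem modP_lin (f1 f2 f3 f4 f5 f6 f7 : ℝ × ℝ → ℝ) (h1 : MeasureTheory.Integrable f1 mu2)
    (h2 : MeasureTheory.Integrable f2 mu2) (h3 : MeasureTheory.Integrable f3 mu2)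
    (h4 : MeasureTheory.Integrable f4 mu2) (h5 : MeasureTheory.Integrable f5 mu2)
    (h6 : MeasureTheory.Integrable f6 mu2) (h7 : MeasureTheory.Integrable f7 mu2)
    (h : ∀ p, 1 + f1 p + f2 p + f3 p - (f4 p + f5 p + f6 p + f7 p) = 0) :
    1 + ∫ p, f1 p ∂mu2 + ∫ p, f2 p ∂mu2 + ∫ p, f3 p ∂mu2 -
      (∫ p, f4 p ∂mu2 + ∫ p, f5 p ∂mu2 + ∫ p, f6 p ∂mu2 + ∫ p, f7 p ∂mu2) = 0 := by
  have hone : ∫ _p : ℝ × ℝ, (1 : ℝ) ∂mu2 = 1 := by
    rw [MeasureTheory.integral_const, MeasureTheory.measureReal_def, mu2_one]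
    simp
  have hc : MeasureTheory.Integrable (fun _ : ℝ × ℝ => (1 : ℝ)) mu2 :=
    MeasureTheory.integrable_const _
  have e1 : MeasureTheory.Integrable (fun p => 1 + f1 p) mu2 := hc.add h1
  have e2 : MeasureTheory.Integrable (fun p => 1 + f1 p + f2 p) mu2 := e1.add h2
  have e3 : MeasureTheory.Integrable (fun p => 1 + f1 p + f2 p + f3 p) mu2 := e2.add h3
  have e5 : MeasureTheory.Integrable (fun p => f4 p + f5 p) mu2 := h4.add h5
  have e6 : MeasureTheory.Integrable (fun p => f4 p + f5 p + f6 p) mu2 := e5.add h6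
  have e7 : MeasureTheory.Integrable (fun p => f4 p + f5 p + f6 p + f7 p) mu2 := e6.add h7
  have key : ∫ p, (1 + f1 p + f2 p + f3 p - (f4 p + f5 p + f6 p + f7 p)) ∂mu2 = 0 := by
    simp only [h]
    exact MeasureTheory.integral_zero _ _
  rw [MeasureTheory.integral_sub e3 e7, MeasureTheory.integral_add e2 h3,
    MeasureTheory.integral_add e1 h2, MeasureTheory.integral_add hc h1,
    MeasureTheory.integral_add e6 h7, MeasureTheory.integral_add e5 h6,
    MeasureTheory.integral_add h4 h5, hone] at key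
  exact key

theorem modP (a b b' : ℕ) :
    1 + qt b (b + a) (b + a) (b + 2 * a) + qt b' (b' + a) (b' + a) (b' + 2 * a)
      + qt b (b + 2 * a) b' (b' + 2 * a)
      - (qt b (b + a) b' (b' + a) + qt (b + a) (b + 2 * a) (b' + a) (b' + 2 * a)
        + qt b (b + a) (b' + a) (b' + 2 * a) + qt b' (b' + a) (b + a) (b + 2 * a)) = 0 := by
  simp only [qt_G4]
  refine modP_lin _ _ _ _ _ _ _ (G4_int _ _ _ _) (G4_int _ _ _ _) (G4_int _ _ _ _)
    (G4_int _ _ _ _) (G4_int _ _ _ _) (G4_int _ _ _ _) (G4_int _ _ _ _) (fun p => ?_)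
  have hA := ap3 p.2 p.1 a b b'
  have hB := ap3 p.2 p.1 a b' b
  unfold VioP at hA hB
  exact modP_pt _ _ _ _ _ _ (C7_phi_cases _) (C7_phi_cases _) (C7_phi_cases _) (C7_phi_cases _)
    (C7_phi_cases _) (C7_phi_cases _) hA hB

end Pool.Agent.Lib.MP_f6c41f_nt.RP
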