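import Pool.Agent.Lib.MP_f6c41f_nt.RT.Tool

/-!
# MP_f6c41f_nt RP: definitions for the theorem on rates with parallelograms

`HypP f B δ N`: the identities for `f (n) f (n + a) f (n + b) f (n + a + b)`, `1 ≤ a, b ≤ B`, hold at `N`
with error `δ`.  `VioP w a b b'`: with the same difference `a` there are a constant progression of three
terms at `b` and an alternating one at `b'`.  `Nc c b k` is the sum of `c` over `[b, b + k)`; `AP c B` is the
absence of `VioP` on `[0, B]` in terms of the sign changes `c`.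
-/

set_option autoImplicit false

namespace Pool.Agent.Lib.MP_f6c41f_nt.RP

open Finset Pool.Agent.Lib.MP_f6c41f_nt Pool.Agent.Lib.MP_f6c41f_nt.RT
open scoped Classical

/-- The identities for parallelograms with sides at most `B` hold at `N` with error at most `δ`. -/
def HypP (f : ℕ → ℝ) (B : ℕ) (δ : ℝ) (N : ℕ) : Prop :=
  ∀ a b : ℕ, 1 ≤ a → a ≤ B → 1 ≤ b → b ≤ B →
    |(1 / (N : ℝ)) * ∑ n ∈ Icc 1 N, f n * f (n + a) * f (n + b) * f (n + a + b) -
      ∫ t in (0:ℝ)..1, ∫ s in (0:ℝ)..1,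
        phi t * phi (t + a * s) * phi (t + b * s) * phi (t + (a + b) * s)| ≤ δ

/-- The sum of a product of four translates of `f`. -/
noncomputable def qa (f : ℕ → ℝ) (i j k l N : ℕ) : ℝ :=
  ∑ n ∈ Icc 1 N, f (n + i) * f (n + j) * f (n + k) * f (n + l)

/-- The integral of a product of four values of `phi`. -/
noncomputable def qt (i j k l : ℕ) : ℝ :=
  ∫ t in (0:ℝ)..1, ∫ s in (0:ℝ)..1,
    phi (t + i * s) * phi (t + j * s) * phi (t + k * s) * phi (t + l * s)

/-- A constant progression at `b` and an alternating one at `b'`, both with difference `a`. -/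
def VioP (w : ℕ → ℝ) (a b b' : ℕ) : Prop :=
  w b = w (b + a) ∧ w (b + a) = w (b + 2 * a) ∧ w b' = -w (b' + a) ∧ w (b' + a) = -w (b' + 2 * a)

/-- The sum of `c` over `[b, b + k)`. -/
def Nc (c : ℕ → ℕ) (b k : ℕ) : ℕ := ∑ i ∈ range k, c (b + i)

/-- No difference `a` has both a pair of even adjacent blocks and a pair of odd adjacent blocks of
length `a` in `[0, B)`. -/
def AP (c : ℕ → ℕ) (B : ℕ) : Prop :=
  ∀ a b b' : ℕ, 1 ≤ a → b + 2 * a ≤ B → b' + 2 * a ≤ B →
    ¬ (Even (Nc c b a) ∧ Even (Nc c (b + a) a) ∧ Odd (Nc c b' a) ∧ Odd (Nc c (b' + a) a))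

theorem Nc_zero (c : ℕ → ℕ) (b : ℕ) : Nc c b 0 = 0 := by simp [Nc]

theorem Nc_one (c : ℕ → ℕ) (b : ℕ) : Nc c b 1 = c b := by simp [Nc]

theorem Nc_succ (c : ℕ → ℕ) (b k : ℕ) : Nc c b (k + 1) = Nc c b k + c (b + k) := by
  simp [Nc, sum_range_succ]

theorem Nc_add (c : ℕ → ℕ) (b k l : ℕ) : Nc c b (k + l) = Nc c b k + Nc c (b + k) l := by
  induction l with
  | zero => simp [Nc_zero]
  | succ l ih => rw [← add_assoc, Nc_succ, ih, Nc_succ, add_assoc, add_assoc]

theorem Nc_head (c : ℕ → ℕ) (b k : ℕ) : Nc c b (k + 1) = c b + Nc c (b + 1) k := by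
  rw [add_comm k 1, Nc_add, Nc_one]

theorem Nc_shift (c : ℕ → ℕ) (b k : ℕ) : Nc c (b + 1) k + c b = Nc c b k + c (b + k) := by
  rw [← Nc_succ, Nc_head]; ring

theorem Nc_mul (c : ℕ → ℕ) (b k m : ℕ) : Nc c b (m * k) = ∑ i ∈ range m, Nc c (b + i * k) k := by
  induction m with
  | zero => simp [Nc_zero]
  | succ m ih => rw [add_mul, one_mul, Nc_add, ih, sum_range_succ]

theorem Nc_le (c : ℕ → ℕ) (hc : ∀ i, c i ≤ 1) (b k : ℕ) : Nc c b k ≤ k := by
  induction k with
  | zero => simp [Nc_zero]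
  | succ k ih => rw [Nc_succ]; have := hc (b + k); omega

end Pool.Agent.Lib.MP_f6c41f_nt.RP
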