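import Pool.Agent.Lib.MP_f6c41f_nt.RP.PDefs

/-!
# MP_f6c41f_nt RP, row QSum: translating a mean

Proof.  Induction on `i`: `Σ_{n ≤ N} g (n + i + 1) - Σ_{n ≤ N} g (n + i) = g (N + i + 1) - g (i + 1)` (telescoping), of
absolute value at most `2`.
-/

set_option autoImplicit false

namespace Pool.Agent.Lib.MP_f6c41f_nt.RP

open Finset Pool.Agent.Lib.MP_f6c41f_nt Pool.Agent.Lib.MP_f6c41f_nt.RT
open scoped Classical

private theorem qsum_tel (g : ℕ → ℝ) (N i : ℕ) :
    ∑ n ∈ Icc 1 N, g (n + (i + 1)) - ∑ n ∈ Icc 1 N, g (n + i) = g (N + i + 1) - g (i + 1) := by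
  induction N with
  | zero => simp
  | succ N ih =>
    rw [Finset.sum_Icc_succ_top (by omega), Finset.sum_Icc_succ_top (by omega)]
    have e1 : g (N + 1 + (i + 1)) = g (N + 1 + i + 1) := by congr 1
    have e2 : g (N + 1 + i) = g (N + i + 1) := by congr 1; omega
    rw [e1, e2]
    linarith

theorem qsum (g : ℕ → ℝ) (hg : ∀ n, |g n| ≤ 1) (N i : ℕ) :
    |∑ n ∈ Icc 1 N, g (n + i) - ∑ n ∈ Icc 1 N, g n| ≤ 2 * i := by
  induction i with
  | zero => simp
  | succ i ih =>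
    have h1 := qsum_tel g N i
    have h2 := abs_le.1 (hg (N + i + 1))
    have h3 := abs_le.1 (hg (i + 1))
    rw [abs_le] at ih ⊢
    push_cast
    constructor
    · linarith [ih.1]
    · linarith [ih.2]

end Pool.Agent.Lib.MP_f6c41f_nt.RP
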