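import Pool.Agent.Lib.MP_f6c41f_nt.RP.QSum
import Pool.Agent.Lib.MP_f6c41f_nt.RP.QTor

/-!
# MP_f6c41f_nt RP, row Quad: the identities for all parallelograms

Proof.  The product is symmetric in `(i, l)`, in `(j, k)` and under `(i, l) ↔ (j, k)` (for `qa` and `qt`: `mul_comm` under
the sum and the integrals), so let `i` be the least of the four; then `j = i + a`, `k = i + b`, `l = i + a + b`.
If `a = 0` or `b = 0` then both products are `1` (signs; `phi_cases'`), `qa = N`, `qt = 1`, and `0 ≤ δ N + 2 B`.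
Otherwise `qsum` for `g n = f n f (n + a) f (n + b) f (n + a + b)` (`|g| ≤ 1`), shift `i ≤ B`, `HypP` for `(a, b)`
(times `N`), and `qtor_shift`.
-/

set_option autoImplicit false

namespace Pool.Agent.Lib.MP_f6c41f_nt.RP

open Finset Pool.Agent.Lib.MP_f6c41f_nt Pool.Agent.Lib.MP_f6c41f_nt.RT
open scoped Classical

private theorem quad_int_one (F : ℝ → ℝ → ℝ) (h : ∀ t s, F t s = 1) :
    ∫ t in (0:ℝ)..1, ∫ s in (0:ℝ)..1, F t s = 1 := by
  simp [h]

private theorem quad_sq {f : ℕ → ℝ} (hf : Sg f) (n : ℕ) : f n * f n = 1 := by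
  rcases hf n with h | h <;> rw [h] <;> norm_num

private theorem quad_abs {f : ℕ → ℝ} (hf : Sg f) (n : ℕ) : |f n| = 1 := by
  rcases hf n with h | h <;> rw [h] <;> norm_num

private theorem quad_phi_sq (x : ℝ) : phi x * phi x = 1 := by
  rcases phi_cases' x with h | h <;> rw [h] <;> norm_num

private theorem qa_swap_il (f : ℕ → ℝ) (i j k l N : ℕ) : qa f i j k l N = qa f l j k i N := by
  unfold qa
  exact sum_congr rfl fun n _ => by ring

private theorem qa_swap_jk (f : ℕ → ℝ) (i j k l N : ℕ) : qa f i j k l N = qa f i k j l N := by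
  unfold qa
  exact sum_congr rfl fun n _ => by ring

private theorem qa_swap_pair (f : ℕ → ℝ) (i j k l N : ℕ) : qa f i j k l N = qa f j i l k N := by
  unfold qa
  exact sum_congr rfl fun n _ => by ring

private theorem qt_congr {i j k l i' j' k' l' : ℕ}
    (h : ∀ t s : ℝ, phi (t + i * s) * phi (t + j * s) * phi (t + k * s) * phi (t + l * s) =
      phi (t + i' * s) * phi (t + j' * s) * phi (t + k' * s) * phi (t + l' * s)) :
    qt i j k l = qt i' j' k' l' := by
  unfold qt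
  simp only [h]

private theorem qt_swap_il (i j k l : ℕ) : qt i j k l = qt l j k i :=
  qt_congr fun t s => by ring

private theorem qt_swap_jk (i j k l : ℕ) : qt i j k l = qt i k j l :=
  qt_congr fun t s => by ring

private theorem qt_swap_pair (i j k l : ℕ) : qt i j k l = qt j i l k :=
  qt_congr fun t s => by ring

private theorem quad_zero {f : ℕ → ℝ} (hf : Sg f) (B : ℕ) (δ : ℝ) (hδ : 0 ≤ δ) (N : ℕ)
    (i b : ℕ) : |qa f i i (i + b) (i + b) N - N * qt i i (i + b) (i + b)| ≤ δ * N + 2 * B := by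
  have h1 : qa f i i (i + b) (i + b) N = N := by
    unfold qa
    have : ∀ n ∈ Icc 1 N, f (n + i) * f (n + i) * f (n + (i + b)) * f (n + (i + b)) = 1 := by
      intro n _
      rw [quad_sq hf, one_mul, quad_sq hf]
    rw [sum_congr rfl this]
    simp
  have h2 : qt i i (i + b) (i + b) = 1 := by
    unfold qt
    apply quad_int_one
    intro t s
    rw [quad_phi_sq, one_mul, quad_phi_sq]
  rw [h1, h2, mul_one, sub_self, abs_zero]
  positivity

private theorem quad_core {f : ℕ → ℝ} (hf : Sg f) (B : ℕ) (δ : ℝ) (hδ : 0 ≤ δ) (N : ℕ) (hN : 1 ≤ N)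
    (hH : HypP f B δ N) (i a b : ℕ) (hi : i ≤ B) (ha : a ≤ B) (hb : b ≤ B) :
    |qa f i (i + a) (i + b) (i + a + b) N - N * qt i (i + a) (i + b) (i + a + b)| ≤
      δ * N + 2 * B := by
  rcases Nat.eq_zero_or_pos a with h0 | ha0
  · subst h0
    simpa using quad_zero hf B δ hδ N i b
  rcases Nat.eq_zero_or_pos b with h0 | hb0
  · subst h0
    have := quad_zero hf B δ hδ N i a
    rw [qa_swap_jk, qt_swap_jk]
    simpa using this
  set g : ℕ → ℝ := fun n => f n * f (n + a) * f (n + b) * f (n + a + b) with hg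
  have hg1 : ∀ n, |g n| ≤ 1 := by
    intro n
    rw [hg]
    simp only [abs_mul, quad_abs hf, mul_one, le_refl]
  have h1 := qsum g hg1 N i
  have h2 : ∑ n ∈ Icc 1 N, g (n + i) = qa f i (i + a) (i + b) (i + a + b) N := by
    unfold qa
    apply sum_congr rfl
    intro n _
    rw [hg]
    simp only [add_assoc]
  have h3 := hH a b ha0 ha hb0 hb
  rw [← qtor_shift i a b] at h3
  have hNr : (0:ℝ) < N := by exact_mod_cast hN
  have h4 : |∑ n ∈ Icc 1 N, g n - N * qt i (i + a) (i + b) (i + a + b)| ≤ δ * N := by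
    have e : ∑ n ∈ Icc 1 N, g n - N * qt i (i + a) (i + b) (i + a + b) =
        N * ((1 / (N : ℝ)) * ∑ n ∈ Icc 1 N, g n - qt i (i + a) (i + b) (i + a + b)) := by
      field_simp
    rw [e, abs_mul, abs_of_pos hNr]
    calc (N : ℝ) * _ ≤ N * δ := mul_le_mul_of_nonneg_left h3 hNr.le
      _ = δ * N := mul_comm _ _
  rw [h2] at h1
  have hiB : (i : ℝ) ≤ B := by exact_mod_cast hi
  rw [abs_le] at h1 h4 ⊢
  constructor
  · linarith [h1.1, h4.1]
  · linarith [h1.2, h4.2]

private theorem quad_least {f : ℕ → ℝ} (hf : Sg f) (B : ℕ) (δ : ℝ) (hδ : 0 ≤ δ) (N : ℕ) (hN : 1 ≤ N)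
    (hH : HypP f B δ N) (i j k l : ℕ) (hi : i ≤ B) (hj : j ≤ B) (hk : k ≤ B)
    (he : i + l = j + k) (h1 : i ≤ j) (h2 : i ≤ k) :
    |qa f i j k l N - N * qt i j k l| ≤ δ * N + 2 * B := by
  obtain ⟨a, rfl⟩ := Nat.exists_eq_add_of_le h1
  obtain ⟨b, rfl⟩ := Nat.exists_eq_add_of_le h2
  obtain rfl : l = i + a + b := by omega
  exact quad_core hf B δ hδ N hN hH i a b hi (by omega) (by omega)

theorem quad {f : ℕ → ℝ} (hf : Sg f) (B : ℕ) (δ : ℝ) (hδ : 0 ≤ δ) (N : ℕ) (hN : 1 ≤ N)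
    (hH : HypP f B δ N) (i j k l : ℕ) (hi : i ≤ B) (hj : j ≤ B) (hk : k ≤ B) (hl : l ≤ B)
    (he : i + l = j + k) : |qa f i j k l N - N * qt i j k l| ≤ δ * N + 2 * B := by
  by_cases h1 : i ≤ j ∧ i ≤ k
  · exact quad_least hf B δ hδ N hN hH i j k l hi hj hk he h1.1 h1.2
  by_cases h2 : l ≤ j ∧ l ≤ k
  · rw [qa_swap_il, qt_swap_il]
    exact quad_least hf B δ hδ N hN hH l j k i hl hj hk (by omega) h2.1 h2.2
  by_cases h3 : j ≤ i ∧ j ≤ l
  · rw [qa_swap_pair, qt_swap_pair]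
    exact quad_least hf B δ hδ N hN hH j i l k hj hi hl (by omega) h3.1 h3.2
  · have h4 : k ≤ i ∧ k ≤ l := by omega
    rw [qa_swap_jk, qt_swap_jk, qa_swap_pair, qt_swap_pair]
    exact quad_least hf B δ hδ N hN hH k i l j hk hi hl (by omega) h4.1 h4.2

end Pool.Agent.Lib.MP_f6c41f_nt.RP
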