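import Pool.Agent.Lib.MP_f6c41f_nt.RP.Quad
import Pool.Agent.Lib.MP_f6c41f_nt.RP.ModP

/-!
# MP_f6c41f_nt RP, row VioPC: violations are rare

Proof.  With `x_i = f (n + i)` and `P_b, Q_b` as in row ModP: `VioP` at `(b, b')` has indicator at most
`(P_b P_b' - Q_b Q_b')/8` (for all signs; `P_b P_b' - Q_b Q_b' ≥ 0` always).  Sum over `1 ≤ n ≤ N` and expand:
`Σ_n (P_b P_b' - Q_b Q_b') = N + qa f b (b+a) (b+a) (b+2a) N + ... ` with the same seven terms as in `modP`
(`x_b x_{b+2a} = x_b x_{b+a} x_{b+a} x_{b+2a}`).  By `quad` (seven times; all indices `≤ B`, the sums of the outer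
and inner indices agree) and `modP` times `N` this is at most `7 (δ N + 2 B)`; divide by `8`.
-/

set_option autoImplicit false

namespace Pool.Agent.Lib.MP_f6c41f_nt.RP

open Finset Pool.Agent.Lib.MP_f6c41f_nt Pool.Agent.Lib.MP_f6c41f_nt.RT
open scoped Classical

private theorem vioPC_sign {x0 x1 x2 y0 y1 y2 : ℝ} (h0 : x0 = 1 ∨ x0 = -1) (h1 : x1 = 1 ∨ x1 = -1)
    (h2 : x2 = 1 ∨ x2 = -1) (k0 : y0 = 1 ∨ y0 = -1) (k1 : y1 = 1 ∨ y1 = -1)
    (k2 : y2 = 1 ∨ y2 = -1) : 0 ≤ 1 + x0 * x1 * x1 * x2 + y0 * y1 * y1 * y2 + x0 * x2 * y0 * y2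
      - (x0 * x1 * y0 * y1 + x1 * x2 * y1 * y2 + x0 * x1 * y1 * y2 + y0 * y1 * x1 * x2) := by
  rcases h0 with rfl | rfl <;> rcases h1 with rfl | rfl <;> rcases h2 with rfl | rfl <;>
    rcases k0 with rfl | rfl <;> rcases k1 with rfl | rfl <;> rcases k2 with rfl | rfl <;>
    norm_num

private theorem vioPC_one {x y : ℝ} (h : x = 1 ∨ x = -1) (k : y = 1 ∨ y = -1) :
    (8 : ℝ) ≤ 1 + x * x * x * x + y * -y * -y * y + x * x * y * y
      - (x * x * y * -y + x * x * -y * y + x * x * -y * y + y * -y * x * x) := by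
  rcases h with rfl | rfl <;> rcases k with rfl | rfl <;> norm_num

theorem vioPC {f : ℕ → ℝ} (hf : Sg f) (B : ℕ) (δ : ℝ) (hδ : 0 ≤ δ) (N : ℕ) (hN : 1 ≤ N)
    (hH : HypP f B δ N) (a b b' : ℕ) (hb : b + 2 * a ≤ B) (hb' : b' + 2 * a ≤ B) :
    (((Icc 1 N).filter (fun n => VioP (fun i => f (n + i)) a b b')).card : ℝ) ≤ δ * N + 2 * B := by
  have hterm : ∀ n ∈ Icc 1 N, (if VioP (fun i => f (n + i)) a b b' then (1 : ℝ) else 0) ≤
      (1 / 8) * (1 + f (n + b) * f (n + (b + a)) * f (n + (b + a)) * f (n + (b + 2 * a))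
        + f (n + b') * f (n + (b' + a)) * f (n + (b' + a)) * f (n + (b' + 2 * a))
        + f (n + b) * f (n + (b + 2 * a)) * f (n + b') * f (n + (b' + 2 * a))
        - (f (n + b) * f (n + (b + a)) * f (n + b') * f (n + (b' + a))
          + f (n + (b + a)) * f (n + (b + 2 * a)) * f (n + (b' + a)) * f (n + (b' + 2 * a))
          + f (n + b) * f (n + (b + a)) * f (n + (b' + a)) * f (n + (b' + 2 * a))
          + f (n + b') * f (n + (b' + a)) * f (n + (b + a)) * f (n + (b + 2 * a)))) := by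
    intro n _
    split_ifs with hv
    · obtain ⟨v1, v2, v3, v4⟩ := hv
      simp only at v1 v2 v3 v4
      have v5 : f (n + (b' + a)) = -f (n + b') := by rw [v3, neg_neg]
      have v6 : f (n + (b' + 2 * a)) = f (n + b') := by rw [v3, v4, neg_neg]
      rw [← v2, ← v1, v5, v6]
      have := vioPC_one (hf (n + b)) (hf (n + b'))
      linarith
    · have := vioPC_sign (hf (n + b)) (hf (n + (b + a))) (hf (n + (b + 2 * a))) (hf (n + b'))
        (hf (n + (b' + a))) (hf (n + (b' + 2 * a)))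
      linarith
  have hcard : (((Icc 1 N).filter (fun n => VioP (fun i => f (n + i)) a b b')).card : ℝ) =
      ∑ n ∈ Icc 1 N, (if VioP (fun i => f (n + i)) a b b' then (1 : ℝ) else 0) := by
    rw [Finset.card_filter]
    push_cast
    rfl
  have hsum := Finset.sum_le_sum hterm
  rw [← hcard, ← Finset.mul_sum] at hsum
  have hexp : ∑ n ∈ Icc 1 N,
      (1 + f (n + b) * f (n + (b + a)) * f (n + (b + a)) * f (n + (b + 2 * a))
        + f (n + b') * f (n + (b' + a)) * f (n + (b' + a)) * f (n + (b' + 2 * a))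
        + f (n + b) * f (n + (b + 2 * a)) * f (n + b') * f (n + (b' + 2 * a))
        - (f (n + b) * f (n + (b + a)) * f (n + b') * f (n + (b' + a))
          + f (n + (b + a)) * f (n + (b + 2 * a)) * f (n + (b' + a)) * f (n + (b' + 2 * a))
          + f (n + b) * f (n + (b + a)) * f (n + (b' + a)) * f (n + (b' + 2 * a))
          + f (n + b') * f (n + (b' + a)) * f (n + (b + a)) * f (n + (b + 2 * a)))) =
      N + qa f b (b + a) (b + a) (b + 2 * a) N + qa f b' (b' + a) (b' + a) (b' + 2 * a) N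
        + qa f b (b + 2 * a) b' (b' + 2 * a) N
        - (qa f b (b + a) b' (b' + a) N + qa f (b + a) (b + 2 * a) (b' + a) (b' + 2 * a) N
          + qa f b (b + a) (b' + a) (b' + 2 * a) N + qa f b' (b' + a) (b + a) (b + 2 * a) N) := by
    unfold qa
    rw [Finset.sum_sub_distrib, Finset.sum_add_distrib, Finset.sum_add_distrib,
      Finset.sum_add_distrib, Finset.sum_add_distrib, Finset.sum_add_distrib,
      Finset.sum_add_distrib]
    simp
  rw [hexp] at hsum
  have q1 := abs_le.1 (quad hf B δ hδ N hN hH b (b + a) (b + a) (b + 2 * a) (by omega) (by omega)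
    (by omega) (by omega) (by omega))
  have q2 := abs_le.1 (quad hf B δ hδ N hN hH b' (b' + a) (b' + a) (b' + 2 * a) (by omega)
    (by omega) (by omega) (by omega) (by omega))
  have q3 := abs_le.1 (quad hf B δ hδ N hN hH b (b + 2 * a) b' (b' + 2 * a) (by omega)
    (by omega) (by omega) (by omega) (by omega))
  have q4 := abs_le.1 (quad hf B δ hδ N hN hH b (b + a) b' (b' + a) (by omega)
    (by omega) (by omega) (by omega) (by omega))
  have q5 := abs_le.1 (quad hf B δ hδ N hN hH (b + a) (b + 2 * a) (b' + a) (b' + 2 * a)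
    (by omega) (by omega) (by omega) (by omega) (by omega))
  have q6 := abs_le.1 (quad hf B δ hδ N hN hH b (b + a) (b' + a) (b' + 2 * a) (by omega)
    (by omega) (by omega) (by omega) (by omega))
  have q7 := abs_le.1 (quad hf B δ hδ N hN hH b' (b' + a) (b + a) (b + 2 * a) (by omega)
    (by omega) (by omega) (by omega) (by omega))
  have hm := congrArg (fun t : ℝ => (N : ℝ) * t) (modP a b b')
  simp only [mul_zero] at hm
  have hN0 : (0 : ℝ) ≤ δ * N := mul_nonneg hδ (Nat.cast_nonneg N)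
  have hB0 : (0 : ℝ) ≤ B := Nat.cast_nonneg B
  linarith [q1.1, q1.2, q2.1, q2.2, q3.1, q3.2, q4.1, q4.2, q5.1, q5.2, q6.1, q6.2, q7.1, q7.2]

end Pool.Agent.Lib.MP_f6c41f_nt.RP
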